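import Pool.Agent.H16.SQ.E2

set_option autoImplicit false

/-!
# Collisions of the points attached to a difference of two squares
-/

namespace Pool.Agent.H16.SQ

open Finset

/-- triples `((x, y), a)` with `x ≠ y` -/
def W (N A : ℕ) : Finset ((ℕ × ℕ) × ℕ) :=
  ((Icc 1 N ×ˢ Icc 1 N) ×ˢ Icc 1 A).filter fun w => w.1.1 ≠ w.1.2

/-- difference -/
def uu (w : (ℕ × ℕ) × ℕ) : ℤ := (w.1.1 : ℤ) - w.1.2
/-- sum -/
def vv (w : (ℕ × ℕ) × ℕ) : ℤ := (w.1.1 : ℤ) + w.1.2
/-- third coordinate -/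
def aa (w : (ℕ × ℕ) × ℕ) : ℤ := (w.2 : ℤ)

/-- the point -/
noncomputable def zz {p : ℕ} (d : ZMod p) (w : (ℕ × ℕ) × ℕ) : ZMod p :=
  (((uu w * vv w : ℤ) : ZMod p) + d) * (((2 * uu w * aa w : ℤ) : ZMod p))⁻¹

theorem W_mem {N A : ℕ} {w : (ℕ × ℕ) × ℕ} (hw : w ∈ W N A) :
    uu w ≠ 0 ∧ |uu w| ≤ N ∧ 0 < vv w ∧ vv w ≤ 2 * N ∧ 0 < aa w ∧ aa w ≤ A := by
  unfold W at hw
  rw [mem_filter, mem_product, mem_product, mem_Icc, mem_Icc, mem_Icc] at hw
  obtain ⟨⟨⟨⟨h1, h2⟩, h3, h4⟩, h5, h6⟩, h7⟩ := hw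
  unfold uu vv aa
  refine ⟨by omega, ?_, by omega, by omega, by omega, by omega⟩
  rw [abs_le]; constructor <;> omega

theorem W_card (N A : ℕ) : ((W N A).card : ℝ) ≤ (N : ℝ) ^ 2 * A := by
  have h : (W N A).card ≤ N ^ 2 * A := by
    unfold W
    refine (card_filter_le _ _).trans ?_
    rw [card_product, card_product, Nat.card_Icc, Nat.card_Icc, Nat.add_sub_cancel, Nat.add_sub_cancel, sq]
  exact_mod_cast h

theorem W_ext {w w' : (ℕ × ℕ) × ℕ} (h1 : uu w = uu w') (h2 : vv w = vv w') (h3 : aa w = aa w') : w = w' := by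
  unfold uu at h1
  unfold vv at h2
  unfold aa at h3
  ext <;> omega

/-- a nonzero integer smaller than `p` is not divisible by `p` -/
theorem cast_ne {p : ℕ} (n : ℤ) (h0 : n ≠ 0) (h : |n| < p) : (n : ZMod p) ≠ 0 := by
  intro hc
  rw [ZMod.intCast_zmod_eq_zero_iff_dvd] at hc
  exact h0 (Int.eq_zero_of_abs_lt_dvd hc h)

/-- signed divisors -/
def sdiv (n : ℤ) : Finset ℤ := (n.natAbs.divisors).image (fun k : ℕ => (k : ℤ)) ∪
  (n.natAbs.divisors).image (fun k : ℕ => -(k : ℤ))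

theorem mem_sdiv {n u : ℤ} (hn : n ≠ 0) (h : u ∣ n) : u ∈ sdiv n := by
  unfold sdiv
  rw [mem_union, mem_image, mem_image]
  rcases Int.natAbs_eq u with h1 | h1
  · left
    exact ⟨u.natAbs, Nat.mem_divisors.2 ⟨Int.natAbs_dvd_natAbs.2 h, by omega⟩, h1.symm⟩
  · right
    exact ⟨u.natAbs, Nat.mem_divisors.2 ⟨Int.natAbs_dvd_natAbs.2 h, by omega⟩, h1.symm⟩

theorem card_sdiv (n : ℤ) : (sdiv n).card ≤ 2 * n.natAbs.divisors.card := by
  unfold sdiv
  refine (card_union_le _ _).trans ?_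
  have h1 := card_image_le (s := n.natAbs.divisors) (f := fun k : ℕ => (k : ℤ))
  have h2 := card_image_le (s := n.natAbs.divisors) (f := fun k : ℕ => -(k : ℤ))
  omega

/-- the collision equation in integers modulo `p` -/
theorem coll_eqn {p : ℕ} [Fact p.Prime] (d : ZMod p) (N A : ℕ) (hN : 1 ≤ N)
    (hp : 4 * N ^ 3 * A < p) {w w' : (ℕ × ℕ) × ℕ} (hw : w ∈ W N A) (hw' : w' ∈ W N A)
    (h : zz d w = zz d w') :
    ((uu w * uu w' * (vv w * aa w' - vv w' * aa w) : ℤ) : ZMod p) =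
      d * ((uu w * aa w - uu w' * aa w' : ℤ) : ZMod p) := by
  obtain ⟨h1, h2, h3, h4, h5, h6⟩ := W_mem hw
  obtain ⟨k1, k2, k3, k4, k5, k6⟩ := W_mem hw'
  have key : ∀ u a : ℤ, u ≠ 0 → |u| ≤ N → 0 < a → a ≤ A → ((2 * u * a : ℤ) : ZMod p) ≠ 0 := by
    intro u a hu0 hu ha0 ha
    apply cast_ne
    · have : a ≠ 0 := by omega
      positivity
    · have e : |2 * u * a| = 2 * (|u| * a) := by
        rw [abs_mul, abs_mul, abs_of_pos ha0]; norm_num; ring
      rw [e]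
      have h7 : |u| * a ≤ N * A := by
        apply mul_le_mul hu ha ha0.le (by positivity)
      have h8 : (4 * N ^ 3 * A : ℤ) < p := by exact_mod_cast hp
      have h9 : (N : ℤ) * A ≤ N ^ 3 * A := by
        have : (N : ℤ) ≤ N ^ 3 := by
          have h10 : (1:ℤ) ≤ N := by exact_mod_cast hN
          nlinarith [sq_nonneg ((N:ℤ) - 1), mul_self_nonneg ((N:ℤ) ^ 2)]
        have hA0 : (0:ℤ) ≤ A := Int.natCast_nonneg _
        nlinarith
      nlinarith [Int.natCast_nonneg A]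
  have e1 := key _ _ h1 h2 h5 h6
  have e2 := key _ _ k1 k2 k5 k6
  unfold zz at h
  have h10 : (((uu w * vv w : ℤ) : ZMod p) + d) * ((2 * uu w' * aa w' : ℤ) : ZMod p) =
      (((uu w' * vv w' : ℤ) : ZMod p) + d) * ((2 * uu w * aa w : ℤ) : ZMod p) := by
    rw [← div_eq_mul_inv, ← div_eq_mul_inv, div_eq_div_iff e1 e2] at h
    exact h
  have h2ne : (2 : ZMod p) ≠ 0 := by
    intro h0
    apply e1
    push_cast
    rw [h0]; ring
  have h11 : (2 : ZMod p) * ((uu w * uu w' * (vv w * aa w' - vv w' * aa w) : ℤ) : ZMod p) =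
      2 * (d * ((uu w * aa w - uu w' * aa w' : ℤ) : ZMod p)) := by
    push_cast at h10 ⊢
    linear_combination h10
  exact mul_left_cancel₀ h2ne h11

theorem i_bound {N A : ℕ} {w w' : (ℕ × ℕ) × ℕ} (hw : w ∈ W N A) (hw' : w' ∈ W N A) :
    |uu w * uu w' * (vv w * aa w' - vv w' * aa w)| ≤ 2 * N ^ 3 * A := by
  obtain ⟨h1, h2, h3, h4, h5, h6⟩ := W_mem hw
  obtain ⟨k1, k2, k3, k4, k5, k6⟩ := W_mem hw'
  have h7 : |vv w * aa w' - vv w' * aa w| ≤ 2 * N * A := by
    have a1 : vv w * aa w' ≤ 2 * N * A := mul_le_mul h4 k6 k5.le (by positivity)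
    have a2 : vv w' * aa w ≤ 2 * N * A := mul_le_mul k4 h6 h5.le (by positivity)
    have a3 : 0 ≤ vv w * aa w' := by positivity
    have a4 : 0 ≤ vv w' * aa w := by positivity
    rw [abs_le]; constructor <;> linarith
  rw [abs_mul, abs_mul]
  calc |uu w| * |uu w'| * |vv w * aa w' - vv w' * aa w| ≤ N * N * (2 * N * A) := by
        apply mul_le_mul _ h7 (abs_nonneg _) (by positivity)
        exact mul_le_mul h2 k2 (abs_nonneg _) (by positivity)
    _ = 2 * N ^ 3 * A := by ring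

theorem j_bound {N A : ℕ} {w w' : (ℕ × ℕ) × ℕ} (hw : w ∈ W N A) (hw' : w' ∈ W N A) :
    |uu w * aa w - uu w' * aa w'| ≤ 2 * N * A := by
  obtain ⟨h1, h2, h3, h4, h5, h6⟩ := W_mem hw
  obtain ⟨k1, k2, k3, k4, k5, k6⟩ := W_mem hw'
  have a1 : |uu w * aa w| ≤ N * A := by
    rw [abs_mul, abs_of_pos h5]; exact mul_le_mul h2 h6 h5.le (by positivity)
  have a2 : |uu w' * aa w'| ≤ N * A := by
    rw [abs_mul, abs_of_pos k5]; exact mul_le_mul k2 k6 k5.le (by positivity)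
  calc |uu w * aa w - uu w' * aa w'| ≤ |uu w * aa w| + |uu w' * aa w'| := abs_sub _ _
    _ ≤ 2 * N * A := by linarith

/-- collisions with `j = 0` -/
theorem coll_zero {p : ℕ} [Fact p.Prime] (d : ZMod p) (N A D : ℕ) (hN : 1 ≤ N)
    (hp : 4 * N ^ 3 * A < p) (hD : ∀ n : ℕ, n ≤ p → n.divisors.card ≤ D) :
    (((W N A) ×ˢ (W N A)).filter fun w => zz d w.1 = zz d w.2 ∧
      uu w.1 * aa w.1 - uu w.2 * aa w.2 = 0).card ≤ N ^ 2 * A * D := by
  classical
  have hWc : (W N A).card ≤ N ^ 2 * A := by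
    have := W_card N A
    exact_mod_cast this
  have h1 : ∀ w ∈ W N A, (((W N A) ×ˢ (W N A)).filter fun w' => (zz d w'.1 = zz d w'.2 ∧
      uu w'.1 * aa w'.1 - uu w'.2 * aa w'.2 = 0) ∧ w'.1 = w).card ≤ D := by
    intro w hw
    obtain ⟨h1, h2, h3, h4, h5, h6⟩ := W_mem hw
    have hb : (uu w * aa w).natAbs ≤ p := by
      have a1 : |uu w * aa w| ≤ N * A := by
        rw [abs_mul, abs_of_pos h5]; exact mul_le_mul h2 h6 h5.le (by positivity)
      have a2 : (uu w * aa w).natAbs ≤ N * A := by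
        zify; exact a1
      have a3 : N * A ≤ N ^ 3 * A := Nat.mul_le_mul_right _ (Nat.le_self_pow (by norm_num) _)
      nlinarith [Nat.zero_le (N ^ 3 * A)]
    refine le_trans ?_ (hD _ hb)
    apply card_le_card_of_injOn (fun w' => (aa w'.2).natAbs)
    · intro w' hw'
      rw [mem_coe, mem_filter] at hw'
      obtain ⟨-, ⟨-, e2⟩, e3⟩ := hw'
      rw [e3] at e2
      rw [mem_coe, Nat.mem_divisors]
      refine ⟨Int.natAbs_dvd_natAbs.2 ⟨uu w'.2, ?_⟩, ?_⟩
      · linarith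
      · have : uu w * aa w ≠ 0 := mul_ne_zero h1 (by omega)
        omega
    · intro w1 hw1 w2 hw2 h12
      rw [mem_coe, mem_filter, mem_product] at hw1 hw2
      obtain ⟨⟨m11, m12⟩, ⟨e1, e2⟩, e3⟩ := hw1
      obtain ⟨⟨m21, m22⟩, ⟨f1, f2⟩, f3⟩ := hw2
      obtain ⟨b1, b2, b3, b4, b5, b6⟩ := W_mem m12
      obtain ⟨c1, c2, c3, c4, c5, c6⟩ := W_mem m22
      have haa : aa w1.2 = aa w2.2 := by
        simp only at h12
        omega
      have huu : uu w1.2 = uu w2.2 := by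
        rw [e3] at e2
        rw [f3] at f2
        have : aa w1.2 * (uu w1.2 - uu w2.2) = 0 := by
          have q1 : uu w1.2 * aa w1.2 = uu w2.2 * aa w2.2 := by linarith
          rw [← haa] at q1
          linear_combination q1
        rcases mul_eq_zero.1 this with h | h
        · omega
        · omega
      have van : ∀ w' : (ℕ × ℕ) × ℕ, w' ∈ W N A → zz d w = zz d w' → uu w * aa w - uu w' * aa w' = 0 →
          vv w * aa w' = vv w' * aa w := by
        intro w' hw' hz hj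
        have h8 := coll_eqn d N A hN hp hw hw' hz
        rw [hj, Int.cast_zero, mul_zero, ZMod.intCast_zmod_eq_zero_iff_dvd] at h8
        have h9 := i_bound hw hw'
        have h10 : (4 * N ^ 3 * A : ℤ) < p := by exact_mod_cast hp
        have h11 : uu w * uu w' * (vv w * aa w' - vv w' * aa w) = 0 := by
          apply Int.eq_zero_of_abs_lt_dvd h8
          have : (0:ℤ) ≤ N ^ 3 * A := by positivity
          linarith
        obtain ⟨g1, -⟩ := W_mem hw'
        rcases mul_eq_zero.1 h11 with h | h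
        · exact absurd h (mul_ne_zero h1 g1)
        · linarith
      have v1 := van w1.2 m12 (by rw [← e3]; exact e1) (by rw [← e3]; exact e2)
      have v2 := van w2.2 m22 (by rw [← f3]; exact f1) (by rw [← f3]; exact f2)
      have hvv : vv w1.2 = vv w2.2 := by
        rw [haa] at v1
        have : aa w * (vv w1.2 - vv w2.2) = 0 := by linear_combination v2 - v1
        rcases mul_eq_zero.1 this with h | h
        · omega
        · omega
      have hsnd := W_ext huu hvv haa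
      exact Prod.ext (e3.trans f3.symm) hsnd
  calc _ = ∑ w ∈ W N A, (((W N A) ×ˢ (W N A)).filter fun w' => (zz d w'.1 = zz d w'.2 ∧
      uu w'.1 * aa w'.1 - uu w'.2 * aa w'.2 = 0) ∧ w'.1 = w).card := by
        rw [card_eq_sum_card_fiberwise (f := fun w' : ((ℕ × ℕ) × ℕ) × ((ℕ × ℕ) × ℕ) => w'.1) (t := W N A)]
        · refine sum_congr rfl fun w _ => ?_
          rw [filter_filter]
        · intro w' hw'
          rw [mem_coe, mem_filter, mem_product] at hw'
          exact hw'.1.1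
    _ ≤ ∑ w ∈ W N A, D := sum_le_sum h1
    _ = (W N A).card * D := by rw [sum_const, smul_eq_mul]
    _ ≤ N ^ 2 * A * D := Nat.mul_le_mul_right _ hWc

/-- collisions with given `j ≠ 0` -/
theorem coll_j {p : ℕ} [Fact p.Prime] (d : ZMod p) (hd : d ≠ 0) (N A D : ℕ) (hN : 1 ≤ N)
    (hp : 4 * N ^ 3 * A < p) (hD : ∀ n : ℕ, n ≤ p → n.divisors.card ≤ D) (j : ℤ) (hj : j ≠ 0)
    (hjb : |j| ≤ 2 * N * A) :
    (((W N A) ×ˢ (W N A)).filter fun w => zz d w.1 = zz d w.2 ∧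
      uu w.1 * aa w.1 - uu w.2 * aa w.2 = j).card ≤ (2 * D) * (2 * D) * (A + 4 * N * D) := by
  classical
  have hp' : (4 * N ^ 3 * A : ℤ) < p := by exact_mod_cast hp
  have hNA : N * A ≤ N ^ 3 * A := Nat.mul_le_mul_right _ (Nat.le_self_pow (by norm_num) _)
  have hNA' : (N * A : ℤ) ≤ N ^ 3 * A := by exact_mod_cast hNA
  have hN2A : (N ^ 2 * A : ℤ) ≤ N ^ 3 * A := by
    have : N ^ 2 * A ≤ N ^ 3 * A := Nat.mul_le_mul_right _ (Nat.pow_le_pow_right hN (by norm_num))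
    exact_mod_cast this
  have hN3A0 : (0:ℤ) ≤ N ^ 3 * A := by positivity
  set S := ((W N A) ×ˢ (W N A)).filter fun w => zz d w.1 = zz d w.2 ∧
      uu w.1 * aa w.1 - uu w.2 * aa w.2 = j with hS
  rcases S.eq_empty_or_nonempty with h0 | ⟨w0, hw0⟩
  · rw [h0]; simp
  set i0 : ℤ := uu w0.1 * uu w0.2 * (vv w0.1 * aa w0.2 - vv w0.2 * aa w0.1) with hi0
  have hmem : ∀ w ∈ S, w.1 ∈ W N A ∧ w.2 ∈ W N A ∧ zz d w.1 = zz d w.2 ∧
      uu w.1 * aa w.1 - uu w.2 * aa w.2 = j := by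
    intro w hw
    rw [hS, mem_filter, mem_product] at hw
    exact ⟨hw.1.1, hw.1.2, hw.2.1, hw.2.2⟩
  obtain ⟨m1, m2, m3, m4⟩ := hmem w0 hw0
  have hi0b : |i0| ≤ 2 * N ^ 3 * A := i_bound m1 m2
  have hi0eq : (i0 : ZMod p) = d * (j : ZMod p) := by
    have := coll_eqn d N A hN hp m1 m2 m3
    rw [m4] at this
    exact this
  have hjne : (j : ZMod p) ≠ 0 := cast_ne j hj (by linarith)
  have hi0ne : i0 ≠ 0 := by
    intro h
    rw [h, Int.cast_zero] at hi0eq
    exact mul_ne_zero hd hjne hi0eq.symm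
  have hiall : ∀ w ∈ S, uu w.1 * uu w.2 * (vv w.1 * aa w.2 - vv w.2 * aa w.1) = i0 := by
    intro w hw
    obtain ⟨n1, n2, n3, n4⟩ := hmem w hw
    have h1 := coll_eqn d N A hN hp n1 n2 n3
    rw [n4, ← hi0eq] at h1
    have h2 := i_bound n1 n2
    have h3 : (p : ℤ) ∣ (uu w.1 * uu w.2 * (vv w.1 * aa w.2 - vv w.2 * aa w.1) - i0) := by
      rw [← ZMod.intCast_zmod_eq_zero_iff_dvd, Int.cast_sub, h1, sub_self]
    have h4 : uu w.1 * uu w.2 * (vv w.1 * aa w.2 - vv w.2 * aa w.1) - i0 = 0 := by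
      apply Int.eq_zero_of_abs_lt_dvd h3
      refine lt_of_le_of_lt (abs_sub _ _) ?_
      linarith
    linarith
  have hi0nat : i0.natAbs ≤ p := by
    zify
    linarith
  have hsd : (sdiv i0).card ≤ 2 * D := (card_sdiv i0).trans (Nat.mul_le_mul_left _ (hD _ hi0nat))
  -- the count for fixed `u, u', a`
  have hfix : ∀ u u' : ℤ, ∀ a ∈ Icc 1 A, (S.filter fun w => (uu w.1 = u ∧ uu w.2 = u') ∧ w.1.2 = a).card ≤
      ((Icc (-(2 * N : ℤ)) (2 * N)).filter fun δ => (a : ℤ) ∣ δ * j).card := by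
    intro u u' a ha
    rcases (S.filter fun w => (uu w.1 = u ∧ uu w.2 = u') ∧ w.1.2 = a).eq_empty_or_nonempty with h0 | ⟨w1, hw1⟩
    · rw [h0]; simp
    rw [mem_filter] at hw1
    obtain ⟨hw1S, ⟨hu1, hu1'⟩, ha1⟩ := hw1
    obtain ⟨n1, n2, n3, n4⟩ := hmem w1 hw1S
    have facts : ∀ w ∈ S.filter (fun w => (uu w.1 = u ∧ uu w.2 = u') ∧ w.1.2 = a),
        aa w.1 = aa w1.1 ∧ aa w.2 = aa w1.2 ∧ uu w.1 = uu w1.1 ∧ uu w.2 = uu w1.2 ∧
        vv w.1 * aa w1.2 - vv w.2 * aa w1.1 = vv w1.1 * aa w1.2 - vv w1.2 * aa w1.1 := by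
      intro w hw
      rw [mem_filter] at hw
      obtain ⟨hwS, ⟨hu, hu'⟩, ha⟩ := hw
      obtain ⟨l1, l2, l3, l4⟩ := hmem w hwS
      obtain ⟨b1, b2, b3, b4, b5, b6⟩ := W_mem l2
      obtain ⟨c1, c2, c3, c4, c5, c6⟩ := W_mem l1
      have e1 : aa w.1 = aa w1.1 := by unfold aa; rw [ha, ha1]
      have e2 : uu w.1 = uu w1.1 := by rw [hu, hu1]
      have e3 : uu w.2 = uu w1.2 := by rw [hu', hu1']
      have e4 : aa w.2 = aa w1.2 := by
        have : uu w1.2 * (aa w.2 - aa w1.2) = 0 := by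
          rw [e1, e2, e3] at l4
          linear_combination n4 - l4
        rcases mul_eq_zero.1 this with h | h
        · rw [e3] at b1; exact absurd h b1
        · linarith
      refine ⟨e1, e4, e2, e3, ?_⟩
      have h1 := hiall w hwS
      have h2 := hiall w1 hw1S
      rw [e1, e2, e3, e4] at h1
      have h3 : uu w1.1 * uu w1.2 ≠ 0 := by
        rw [← e2, ← e3]; exact mul_ne_zero c1 b1
      apply mul_left_cancel₀ h3
      rw [h1, h2]
    obtain ⟨g1, g2, g3, g4, g5, g6⟩ := W_mem n1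
    obtain ⟨g1', g2', g3', g4', g5', g6'⟩ := W_mem n2
    apply card_le_card_of_injOn (fun w => vv w.1 - vv w1.1)
    · intro w hw
      rw [mem_coe] at hw
      obtain ⟨f1, f2, f3, f4, f5⟩ := facts w hw
      rw [mem_filter] at hw
      obtain ⟨hwS, ⟨hu, hu'⟩, ha⟩ := hw
      obtain ⟨l1, l2, l3, l4⟩ := hmem w hwS
      obtain ⟨c1, c2, c3, c4, c5, c6⟩ := W_mem l1
      rw [mem_coe, mem_filter, mem_Icc]
      refine ⟨⟨by linarith, by linarith⟩, ?_⟩
      have haa : (a : ℤ) = aa w1.1 := by unfold aa; rw [ha1]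
      rw [haa]
      -- `a ∣ δ a'` and `u'a' = ua - j`
      have h1 : aa w1.1 ∣ (vv w.1 - vv w1.1) * aa w1.2 := ⟨vv w.2 - vv w1.2, by linear_combination f5⟩
      have h2 : (vv w.1 - vv w1.1) * j = (vv w.1 - vv w1.1) * uu w1.1 * aa w1.1 -
          uu w1.2 * ((vv w.1 - vv w1.1) * aa w1.2) := by
        rw [← n4]; ring
      rw [h2]
      exact dvd_sub (Dvd.intro_left _ rfl) (h1.mul_left _)
    · intro w hw w' hw' hww
      rw [mem_coe] at hw hw'
      obtain ⟨f1, f2, f3, f4, f5⟩ := facts w hw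
      obtain ⟨k1, k2, k3, k4, k5⟩ := facts w' hw'
      have hv : vv w.1 = vv w'.1 := by
        simp only at hww
        linarith
      have hv2 : vv w.2 = vv w'.2 := by
        rw [hv] at f5
        have : aa w1.1 * (vv w.2 - vv w'.2) = 0 := by linear_combination k5 - f5
        rcases mul_eq_zero.1 this with h | h
        · omega
        · linarith
      exact Prod.ext (W_ext (by rw [f3, k3]) hv (by rw [f1, k1])) (W_ext (by rw [f4, k4]) hv2 (by rw [f2, k2]))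
  -- the sum over `a`
  have hsumA : ∑ a ∈ Icc 1 A, ((Icc (-(2 * N : ℤ)) (2 * N)).filter fun δ => (a : ℤ) ∣ δ * j).card ≤ A + 4 * N * D := by
    have h1 : ∑ a ∈ Icc 1 A, ((Icc (-(2 * N : ℤ)) (2 * N)).filter fun δ => (a : ℤ) ∣ δ * j).card =
        ∑ δ ∈ Icc (-(2 * N : ℤ)) (2 * N), ((Icc 1 A).filter fun a : ℕ => (a : ℤ) ∣ δ * j).card := by
      simp_rw [card_filter]
      rw [sum_comm]
    rw [h1]
    have h2 : Icc (-(2 * N : ℤ)) (2 * N) = insert 0 ((Icc (-(2 * N : ℤ)) (2 * N)).erase 0) := by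
      rw [insert_erase]
      rw [mem_Icc]; constructor <;> omega
    rw [h2, sum_insert (by simp)]
    have h3 : ((Icc 1 A).filter fun a : ℕ => (a : ℤ) ∣ 0 * j).card ≤ A := by
      refine (card_filter_le _ _).trans ?_
      rw [Nat.card_Icc]; omega
    have h4 : ∀ δ ∈ (Icc (-(2 * N : ℤ)) (2 * N)).erase 0, ((Icc 1 A).filter fun a : ℕ => (a : ℤ) ∣ δ * j).card ≤ D := by
      intro δ hδ
      rw [mem_erase, mem_Icc] at hδ
      obtain ⟨hδ0, hδ1, hδ2⟩ := hδ
      have hb : (δ * j).natAbs ≤ p := by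
        have hδa : |δ| ≤ 2 * N := abs_le.2 ⟨by linarith, hδ2⟩
        have : |δ * j| ≤ 2 * N * (2 * N * A) := by
          rw [abs_mul]; exact mul_le_mul hδa hjb (abs_nonneg _) (by positivity)
        zify
        nlinarith
      refine le_trans ?_ (hD _ hb)
      apply card_le_card
      intro a ha
      rw [mem_filter] at ha
      rw [Nat.mem_divisors]
      refine ⟨?_, ?_⟩
      · have := Int.natAbs_dvd_natAbs.2 ha.2
        simpa using this
      · have := mul_ne_zero hδ0 hj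
        omega
    have h5 : ∑ δ ∈ (Icc (-(2 * N : ℤ)) (2 * N)).erase 0, ((Icc 1 A).filter fun a : ℕ => (a : ℤ) ∣ δ * j).card ≤
        4 * N * D := by
      refine (sum_le_sum h4).trans ?_
      rw [sum_const, smul_eq_mul]
      apply Nat.mul_le_mul_right
      rw [card_erase_of_mem (by rw [mem_Icc]; constructor <;> omega), Int.card_Icc]
      omega
    exact Nat.add_le_add h3 h5
  -- assembling
  have h1 : S.card ≤ ∑ uv ∈ sdiv i0 ×ˢ sdiv i0, (S.filter fun w => uu w.1 = uv.1 ∧ uu w.2 = uv.2).card := by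
    have := card_eq_sum_card_fiberwise (f := fun w : ((ℕ × ℕ) × ℕ) × ((ℕ × ℕ) × ℕ) => (uu w.1, uu w.2))
      (s := S) (t := sdiv i0 ×ˢ sdiv i0) (by
        intro w hw
        rw [mem_coe] at hw
        rw [mem_coe, mem_product]
        have h := hiall w hw
        exact ⟨mem_sdiv hi0ne ⟨uu w.2 * (vv w.1 * aa w.2 - vv w.2 * aa w.1), by rw [← h]; ring⟩,
          mem_sdiv hi0ne ⟨uu w.1 * (vv w.1 * aa w.2 - vv w.2 * aa w.1), by rw [← h]; ring⟩⟩)
    rw [this]
    apply sum_le_sum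
    rintro ⟨u, v⟩ _
    apply card_le_card
    intro w hw
    rw [mem_filter] at hw ⊢
    exact ⟨hw.1, (Prod.mk.inj hw.2).1, (Prod.mk.inj hw.2).2⟩
  have h2 : ∀ uv ∈ sdiv i0 ×ˢ sdiv i0, (S.filter fun w => uu w.1 = uv.1 ∧ uu w.2 = uv.2).card ≤ A + 4 * N * D := by
    intro uv _
    have h3 := card_eq_sum_card_fiberwise (f := fun w : ((ℕ × ℕ) × ℕ) × ((ℕ × ℕ) × ℕ) => w.1.2)
      (s := S.filter fun w => uu w.1 = uv.1 ∧ uu w.2 = uv.2) (t := Icc 1 A) (by
        intro w hw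
        rw [mem_coe, mem_filter] at hw
        rw [mem_coe, mem_Icc]
        have h := (hmem w hw.1).1
        unfold W at h
        rw [mem_filter, mem_product, mem_Icc] at h
        exact h.1.2)
    rw [h3]
    refine le_trans ?_ hsumA
    apply sum_le_sum
    intro a ha
    rw [filter_filter]
    exact hfix uv.1 uv.2 a ha
  calc S.card ≤ _ := h1
    _ ≤ ∑ uv ∈ sdiv i0 ×ˢ sdiv i0, (A + 4 * N * D) := sum_le_sum h2
    _ = (sdiv i0).card * (sdiv i0).card * (A + 4 * N * D) := by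
        rw [sum_const, card_product, smul_eq_mul]
    _ ≤ (2 * D) * (2 * D) * (A + 4 * N * D) := by
        apply Nat.mul_le_mul_right
        exact Nat.mul_le_mul hsd hsd

/-- **the collision bound** -/
theorem coll_bound {p : ℕ} [Fact p.Prime] (d : ZMod p) (hd : d ≠ 0) (N A D : ℕ) (hN : 1 ≤ N) (hAN : A ≤ N)
    (hp : 4 * N ^ 3 * A < p) (hD : ∀ n : ℕ, n ≤ p → n.divisors.card ≤ D) :
    coll (W N A) (zz d) ≤ 81 * (N ^ 2 * A * D ^ 3) := by
  classical
  have hD1 : 1 ≤ D := by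
    have hp1 : 1 ≤ p := (Fact.out : p.Prime).one_lt.le
    have := hD 1 hp1
    simpa using this
  rcases Nat.eq_zero_or_pos A with hA0 | hA0
  · subst hA0
    have : W N 0 = ∅ := by unfold W; simp
    unfold coll
    rw [this]; simp
  unfold coll
  set T := (W N A ×ˢ W N A).filter fun w => zz d w.1 = zz d w.2 with hT
  have h1 := card_eq_sum_card_fiberwise (f := fun w : ((ℕ × ℕ) × ℕ) × ((ℕ × ℕ) × ℕ) => uu w.1 * aa w.1 - uu w.2 * aa w.2)
      (s := T) (t := Icc (-(2 * N * A : ℤ)) (2 * N * A)) (by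
        intro w hw
        rw [mem_coe, hT, mem_filter, mem_product] at hw
        rw [mem_coe, mem_Icc]
        exact abs_le.1 (j_bound hw.1.1 hw.1.2))
  have hfil : ∀ j : ℤ, T.filter (fun w => uu w.1 * aa w.1 - uu w.2 * aa w.2 = j) =
      ((W N A) ×ˢ (W N A)).filter fun w => zz d w.1 = zz d w.2 ∧ uu w.1 * aa w.1 - uu w.2 * aa w.2 = j := by
    intro j
    rw [hT, filter_filter]
  have h0mem : (0:ℤ) ∈ Icc (-(2 * N * A : ℤ)) (2 * N * A) := by
    rw [mem_Icc]
    have : (0:ℤ) ≤ 2 * N * A := by positivity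
    constructor <;> linarith
  have h2 : Icc (-(2 * N * A : ℤ)) (2 * N * A) = insert 0 ((Icc (-(2 * N * A : ℤ)) (2 * N * A)).erase 0) := by
    rw [insert_erase h0mem]
  rw [h1, h2, sum_insert (by simp)]
  have h3 : (T.filter (fun w => uu w.1 * aa w.1 - uu w.2 * aa w.2 = 0)).card ≤ N ^ 2 * A * D := by
    rw [hfil]
    exact coll_zero d N A D hN hp hD
  have h4 : ∑ j ∈ (Icc (-(2 * N * A : ℤ)) (2 * N * A)).erase 0,
      (T.filter (fun w => uu w.1 * aa w.1 - uu w.2 * aa w.2 = j)).card ≤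
      (4 * N * A) * ((2 * D) * (2 * D) * (A + 4 * N * D)) := by
    have h5 : ∀ j ∈ (Icc (-(2 * N * A : ℤ)) (2 * N * A)).erase 0,
        (T.filter (fun w => uu w.1 * aa w.1 - uu w.2 * aa w.2 = j)).card ≤ (2 * D) * (2 * D) * (A + 4 * N * D) := by
      intro j hj
      rw [mem_erase, mem_Icc] at hj
      rw [hfil]
      exact coll_j d hd N A D hN hp hD j hj.1 (abs_le.2 hj.2)
    refine (sum_le_sum h5).trans ?_
    rw [sum_const, smul_eq_mul]
    apply Nat.mul_le_mul_right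
    rw [card_erase_of_mem h0mem, Int.card_Icc]
    have : (2 * N * A : ℤ) + 1 - -(2 * N * A) = ((4 * N * A + 1 : ℕ) : ℤ) := by push_cast; ring
    rw [this, Int.toNat_natCast]
    omega
  have hD3 : N ^ 2 * A * D ≤ N ^ 2 * A * D ^ 3 := Nat.mul_le_mul_left _ (Nat.le_self_pow (by norm_num) _)
  have h6 : A + 4 * N * D ≤ 5 * N * D := by nlinarith
  have h7 : (4 * N * A) * ((2 * D) * (2 * D) * (A + 4 * N * D)) ≤ 80 * (N ^ 2 * A * D ^ 3) := by
    calc (4 * N * A) * ((2 * D) * (2 * D) * (A + 4 * N * D)) ≤ (4 * N * A) * ((2 * D) * (2 * D) * (5 * N * D)) := by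
          gcongr
      _ = 80 * (N ^ 2 * A * D ^ 3) := by ring
  omega

end Pool.Agent.H16.SQ
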