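import Pool.Graph.R_seed8.W27.BG.Good
import Pool.Graph.R_seed8.H471R4.BW.HOL
import Pool.Graph.R_seed8.Helper924.MW.Lower

set_option autoImplicit false

/-!
# Burgess's method, abstract form
-/

namespace Pool.Agent.H16.SQ

open Finset

/-- number of pairs with the same value -/
noncomputable def coll {Ω F : Type*} [DecidableEq F] (W : Finset Ω) (z : Ω → F) : ℕ :=
  ((W ×ˢ W).filter fun w => z w.1 = z w.2).card

theorem coll_eq {Ω F : Type*} [Fintype F] [DecidableEq F] (W : Finset Ω) (z : Ω → F) :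
    ∑ x : F, ((W.filter fun w => z w = x).card : ℝ) ^ 2 = coll W z := by
  classical
  unfold coll
  rw [card_eq_sum_card_fiberwise (f := fun w : Ω × Ω => z w.1) (t := (univ : Finset F)) (fun _ _ => mem_univ _)]
  push_cast
  refine sum_congr rfl fun x _ => ?_
  rw [sq, ← Nat.cast_mul, ← card_product]
  congr 2
  ext w
  simp only [mem_product, mem_filter]
  constructor
  · rintro ⟨⟨h1, h2⟩, h3, h4⟩
    exact ⟨⟨⟨h1, h3⟩, by rw [h2, h4]⟩, h2⟩
  · rintro ⟨⟨⟨h1, h3⟩, h5⟩, h2⟩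
    exact ⟨⟨h1, h2⟩, h3, by rw [← h5, h2]⟩

/-- Hölder's inequality in the form needed -/
theorem holder {Ω F : Type} [Fintype F] [DecidableEq F] (W : Finset Ω) (z : Ω → F) (f : F → ℝ) (hf : ∀ x, 0 ≤ f x)
    (r : ℕ) (hr : 1 ≤ r) {T E M : ℝ} (hT : (W.card : ℝ) ≤ T) (hT0 : 0 < T) (hE : (coll W z : ℝ) ≤ E)
    (hM : ∑ x : F, f x ^ (2 * r) ≤ M) :
    ∑ w ∈ W, f (z w) ≤ T * (M * E / T ^ 2) ^ (1 / (2 * r : ℝ)) := by
  classical
  have h1 : ∑ w ∈ W, f (z w) = ∑ x : F, ((W.filter fun w => z w = x).card : ℝ) * f x := by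
    rw [← sum_fiberwise_of_maps_to (s := W) (t := (univ : Finset F)) (g := z) (fun _ _ => mem_univ _)]
    refine sum_congr rfl fun x _ => ?_
    rw [← nsmul_eq_mul, ← sum_const]
    refine sum_congr rfl fun w hw => ?_
    rw [(mem_filter.1 hw).2]
  have h2 : ∑ x : F, ((W.filter fun w => z w = x).card : ℝ) = W.card := by
    rw [← Nat.cast_sum, ← card_eq_sum_card_fiberwise (f := z) (t := (univ : Finset F)) (fun _ _ => mem_univ _)]
  have h3 := Pool.Agent.H471R4.BW.hol F r hr (fun x => ((W.filter fun w => z w = x).card : ℝ)) f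
    (fun x => Nat.cast_nonneg _) hf
  rw [coll_eq, h2, ← h1] at h3
  have hM0 : 0 ≤ M := le_trans (sum_nonneg fun x _ => pow_nonneg (hf x) _) hM
  have hE0 : 0 ≤ E := le_trans (Nat.cast_nonneg _) hE
  have hS0 : 0 ≤ ∑ w ∈ W, f (z w) := sum_nonneg fun w _ => hf _
  have h4 : (∑ w ∈ W, f (z w)) ^ (2 * r) ≤ T ^ (2 * r) * (M * E / T ^ 2) := by
    calc (∑ w ∈ W, f (z w)) ^ (2 * r) ≤ (W.card : ℝ) ^ (2 * r - 2) * coll W z * ∑ x, f x ^ (2 * r) := h3
      _ ≤ T ^ (2 * r - 2) * E * M := by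
          have h7 : 0 ≤ ∑ x, f x ^ (2 * r) := sum_nonneg fun x _ => pow_nonneg (hf x) _
          have h8 : (W.card : ℝ) ^ (2 * r - 2) ≤ T ^ (2 * r - 2) := pow_le_pow_left₀ (Nat.cast_nonneg _) hT _
          have h9 : (W.card : ℝ) ^ (2 * r - 2) * coll W z ≤ T ^ (2 * r - 2) * E :=
            mul_le_mul h8 hE (Nat.cast_nonneg _) (by positivity)
          exact mul_le_mul h9 hM h7 (by positivity)
      _ = T ^ (2 * r) * (M * E / T ^ 2) := by
          have e : 2 * r = (2 * r - 2) + 2 := by omega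
          conv_rhs => rw [e, pow_add]
          field_simp
  have hr0 : (0:ℝ) < 2 * r := by have : (1:ℝ) ≤ r := by exact_mod_cast hr
                                 linarith
  have h5 : 0 ≤ M * E / T ^ 2 := by positivity
  calc ∑ w ∈ W, f (z w) = ((∑ w ∈ W, f (z w)) ^ (2 * r)) ^ (1 / (2 * r : ℝ)) := by
        rw [← Real.rpow_natCast, ← Real.rpow_mul hS0]
        push_cast
        rw [mul_one_div_cancel hr0.ne', Real.rpow_one]
    _ ≤ (T ^ (2 * r) * (M * E / T ^ 2)) ^ (1 / (2 * r : ℝ)) := Real.rpow_le_rpow (by positivity) h4 (by positivity)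
    _ = T * (M * E / T ^ 2) ^ (1 / (2 * r : ℝ)) := by
        rw [Real.mul_rpow (by positivity) h5, ← Real.rpow_natCast, ← Real.rpow_mul hT0.le]
        push_cast
        rw [mul_one_div_cancel hr0.ne', Real.rpow_one]

/-- the moment, for an interval of shifts -/
theorem moment_one {p : ℕ} [Fact p.Prime] (χ : DirichletCharacter ℂ p) (hχ : χ ≠ 1) (r B : ℕ) (hr : 1 ≤ r)
    (hB : Real.sqrt p ≤ (B : ℝ) ^ r) (hBp : B ≤ p) :
    ∑ x : ZMod p, ‖∑ b ∈ Icc 1 B, χ (x + (b : ZMod p))‖ ^ (2 * r) ≤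
      ((r : ℝ) ^ (2 * r) + 2 * r) * (B : ℝ) ^ (2 * r) * Real.sqrt p := by
  classical
  have hinj : Set.InjOn (fun b : ℕ => (b : ZMod p)) (Icc 1 B : Finset ℕ) := by
    intro a ha b hb hab
    rw [mem_coe, mem_Icc] at ha hb
    have h1 := (ZMod.natCast_eq_natCast_iff a b p).1 hab
    rcases Nat.lt_or_ge a p with h2 | h2
    · rcases Nat.lt_or_ge b p with h3 | h3
      · exact Nat.ModEq.eq_of_lt_of_lt h1 h2 h3
      · have h4 : b = p := by omega
        exfalso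
        rw [h4] at h1
        have h5 : p ∣ a := (Nat.modEq_zero_iff_dvd).1 (h1.trans (by simp [Nat.ModEq]))
        have := Nat.le_of_dvd (by omega) h5
        omega
    · have h4 : a = p := by omega
      rcases Nat.lt_or_ge b p with h3 | h3
      · exfalso
        rw [h4] at h1
        have h5 : p ∣ b := (Nat.modEq_zero_iff_dvd).1 (h1.symm.trans (by simp [Nat.ModEq]))
        have := Nat.le_of_dvd (by omega) h5
        omega
      · omega
  set s : Finset (ZMod p) := (Icc 1 B).image (fun b : ℕ => (b : ZMod p)) with hs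
  have hcard : s.card = B := by
    rw [hs, card_image_of_injOn hinj, Nat.card_Icc]; omega
  have h1 := Pool.Agent.W27.BG.momF_w χ hχ r hr s (fun _ => 1) (fun _ => by simp)
  rw [hcard] at h1
  have h2 : ∀ x : ZMod p, ∑ b ∈ s, (1:ℂ) * χ (x + b) = ∑ b ∈ Icc 1 B, χ (x + (b : ZMod p)) := by
    intro x
    rw [hs, sum_image (fun a ha b hb hab => hinj (mem_coe.2 ha) (mem_coe.2 hb) hab)]
    simp only [one_mul]
  simp_rw [h2] at h1
  refine h1.trans ?_
  have hp0 : (0:ℝ) ≤ p := Nat.cast_nonneg _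
  have h3 : (p : ℝ) ≤ (B : ℝ) ^ r * Real.sqrt p := by
    calc (p : ℝ) = Real.sqrt p * Real.sqrt p := (Real.mul_self_sqrt hp0).symm
      _ ≤ _ := mul_le_mul_of_nonneg_right hB (Real.sqrt_nonneg _)
  calc (r : ℝ) ^ (2 * r) * (B : ℝ) ^ r * p + (2 * r) * (B : ℝ) ^ (2 * r) * Real.sqrt p
      ≤ (r : ℝ) ^ (2 * r) * (B : ℝ) ^ r * ((B : ℝ) ^ r * Real.sqrt p) + (2 * r) * (B : ℝ) ^ (2 * r) * Real.sqrt p := by
        gcongr
    _ = _ := by rw [two_mul r, pow_add]; ring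

/-- Burgess's inequality for an arbitrary family of points -/
theorem burgess {p : ℕ} [Fact p.Prime] (χ : DirichletCharacter ℂ p) (hχ : χ ≠ 1) (r B : ℕ) (hr : 1 ≤ r)
    (hB : Real.sqrt p ≤ (B : ℝ) ^ r) (hBp : B ≤ p) {Ω : Type} (W : Finset Ω) (z : Ω → ZMod p)
    {T E : ℝ} (hT : (W.card : ℝ) ≤ T) (hT0 : 0 < T) (hE : (coll W z : ℝ) ≤ E) :
    ∑ w ∈ W, ‖∑ b ∈ Icc 1 B, χ (z w + (b : ZMod p))‖ ≤
      T * B * ((((r : ℝ) ^ (2 * r) + 2 * r) * Real.sqrt p * E) / T ^ 2) ^ (1 / (2 * r : ℝ)) := by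
  have h := holder W z (fun x => ‖∑ b ∈ Icc 1 B, χ (x + (b : ZMod p))‖) (fun x => norm_nonneg _) r hr hT hT0 hE
    (moment_one χ hχ r B hr hB hBp)
  refine h.trans (le_of_eq ?_)
  have hr0 : (0:ℝ) < 2 * r := by have : (1:ℝ) ≤ r := by exact_mod_cast hr
                                 linarith
  have hE0 : 0 ≤ E := le_trans (Nat.cast_nonneg _) hE
  have e : ((r : ℝ) ^ (2 * r) + 2 * r) * (B : ℝ) ^ (2 * r) * Real.sqrt p * E / T ^ 2 =
      (B : ℝ) ^ (2 * r) * ((((r : ℝ) ^ (2 * r) + 2 * r) * Real.sqrt p * E) / T ^ 2) := by ring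
  rw [e, Real.mul_rpow (by positivity) (by positivity), ← Real.rpow_natCast (B : ℝ) (2 * r), ← Real.rpow_mul (Nat.cast_nonneg B)]
  push_cast
  rw [mul_one_div_cancel hr0.ne', Real.rpow_one]
  ring

/-! ### the divisor bound -/

theorem card_small (ε : ℝ) (hε : 0 < ε) : ∃ C : ℝ, 1 ≤ C ∧ ∀ n : ℕ, (n.divisors.card : ℝ) ≤ C * (n : ℝ) ^ ε := by
  set K : ℕ := ⌈(1:ℝ) / ε⌉₊ + 1 with hK
  have hK0 : 0 < K := by omega
  have hKr : (0:ℝ) < K := by exact_mod_cast hK0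
  have hkK : (1:ℝ) / K ≤ ε := by
    rw [div_le_iff₀ hKr]
    have h1 : (1:ℝ) / ε ≤ K := by
      have := Nat.le_ceil ((1:ℝ) / ε)
      rw [hK]; push_cast; linarith
    rw [div_le_iff₀ hε] at h1
    linarith
  set C : ℕ := (K ^ K * 2) ^ (2 ^ K) with hC
  have hC1 : (1:ℝ) ≤ C := by
    have : 1 ≤ C := Nat.one_le_pow _ _ (by positivity)
    exact_mod_cast this
  refine ⟨(C:ℝ) ^ ((1:ℝ) / K), Real.one_le_rpow hC1 (by positivity), fun n => ?_⟩
  rcases Nat.eq_zero_or_pos n with rfl | hn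
  · rw [Nat.divisors_zero, Finset.card_empty, Nat.cast_zero]; positivity
  · have h2 := Helper924.MW.Lower.card_divisors_pow_le K hK0 n hn.ne'
    have h4 : ((n.divisors.card : ℝ)) ^ K ≤ C * n := by exact_mod_cast h2
    have hd : (0:ℝ) ≤ n.divisors.card := Nat.cast_nonneg _
    have hn1 : (1:ℝ) ≤ n := by exact_mod_cast hn
    have h5 : (n.divisors.card : ℝ) = ((n.divisors.card : ℝ) ^ K) ^ ((1:ℝ) / K) := by
      rw [← Real.rpow_natCast (n.divisors.card : ℝ) K, ← Real.rpow_mul hd, mul_one_div_cancel hKr.ne',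
        Real.rpow_one]
    rw [h5]
    calc ((n.divisors.card : ℝ) ^ K) ^ ((1:ℝ) / K) ≤ ((C:ℝ) * n) ^ ((1:ℝ) / K) := by
          refine Real.rpow_le_rpow (pow_nonneg hd K) h4 (by positivity)
      _ = (C:ℝ) ^ ((1:ℝ) / K) * (n:ℝ) ^ ((1:ℝ) / K) := Real.mul_rpow (Nat.cast_nonneg _) (Nat.cast_nonneg _)
      _ ≤ (C:ℝ) ^ ((1:ℝ) / K) * (n:ℝ) ^ ε := by
        refine mul_le_mul_of_nonneg_left ?_ (by positivity)
        exact Real.rpow_le_rpow_of_exponent_le hn1 hkK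

/-- all numbers up to `p^k` have at most `C p^κ` divisors -/
theorem div_bound (k : ℕ) (κ : ℝ) (hκ : 0 < κ) : ∃ C : ℝ, 1 ≤ C ∧ ∀ p n : ℕ, 1 ≤ p → n ≤ p ^ k →
    (n.divisors.card : ℝ) ≤ C * (p : ℝ) ^ κ := by
  obtain ⟨C, hC1, hC⟩ := card_small (κ / (k + 1)) (by positivity)
  refine ⟨C, hC1, fun p n hp hn => ?_⟩
  have hp1 : (1:ℝ) ≤ p := by exact_mod_cast hp
  have h1 : (n : ℝ) ≤ (p : ℝ) ^ (k : ℝ) := by
    rw [Real.rpow_natCast]; exact_mod_cast hn
  calc (n.divisors.card : ℝ) ≤ C * (n : ℝ) ^ (κ / (k + 1)) := hC n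
    _ ≤ C * ((p : ℝ) ^ (k : ℝ)) ^ (κ / (k + 1)) := by gcongr
    _ = C * (p : ℝ) ^ (k * (κ / (k + 1))) := by rw [← Real.rpow_mul (by positivity)]
    _ ≤ C * (p : ℝ) ^ κ := by
        apply mul_le_mul_of_nonneg_left _ (by linarith)
        apply Real.rpow_le_rpow_of_exponent_le hp1
        rw [mul_div_assoc', div_le_iff₀ (by positivity)]
        nlinarith

end Pool.Agent.H16.SQ
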