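import Pool.Agent.H16.SQ.E1
import Pool.Graph.R_seed8.W27.BG.Sets

set_option autoImplicit false

/-!
# Burgess's bound for an interval in arbitrary position
-/

namespace Pool.Agent.H16.SQ

open Finset
open scoped Pointwise

/-- powers of `p` beat constants -/
theorem large_pow (τ : ℝ) (hτ : 0 < τ) (C : ℝ) : ∃ P : ℕ, ∀ p : ℕ, P ≤ p → C ≤ (p : ℝ) ^ τ := by
  have h := (tendsto_rpow_atTop hτ).comp tendsto_natCast_atTop_atTop
  have h2 := (h.eventually_ge_atTop C).exists_forall_of_atTop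
  obtain ⟨P, hP⟩ := h2
  exact ⟨P, fun p hp => hP p hp⟩

theorem cast_inj {p : ℕ} (n : ℕ) (hn : n ≤ p) :
    Set.InjOn (fun b : ℕ => (b : ZMod p)) (range n : Finset ℕ) := by
  intro a ha b hb hab
  rw [mem_coe, mem_range] at ha hb
  exact Nat.ModEq.eq_of_lt_of_lt ((ZMod.natCast_eq_natCast_iff a b p).1 hab) (by omega) (by omega)

/-- shifting an interval sum -/
theorem shift_range (g : ℤ → ℂ) (hg : ∀ k, ‖g k‖ ≤ 1) (n y : ℕ) :
    ‖∑ x ∈ range n, g (x : ℤ) - ∑ x ∈ range n, g ((x : ℤ) - y)‖ ≤ 2 * y := by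
  induction y with
  | zero => simp
  | succ y ih =>
    have h1 : ‖∑ x ∈ range n, g ((x : ℤ) - y) - ∑ x ∈ range n, g ((x : ℤ) - (y + 1 : ℕ))‖ ≤ 2 := by
      rcases Nat.eq_zero_or_pos n with rfl | hn
      · simp
      · obtain ⟨m, rfl⟩ : ∃ m, n = m + 1 := ⟨n - 1, by omega⟩
        rw [sum_range_succ, sum_range_succ' (fun x : ℕ => g ((x : ℤ) - (y + 1 : ℕ)))]
        have e : ∀ x : ℕ, ((x + 1 : ℕ) : ℤ) - (y + 1 : ℕ) = (x : ℤ) - y := by intro x; push_cast; ring
        simp_rw [e]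
        rw [add_sub_add_left_eq_sub]
        calc _ ≤ ‖g ((m : ℤ) - y)‖ + ‖g (((0 : ℕ) : ℤ) - (y + 1 : ℕ))‖ := norm_sub_le _ _
          _ ≤ 1 + 1 := add_le_add (hg _) (hg _)
          _ = 2 := by norm_num
    calc _ = ‖(∑ x ∈ range n, g (x : ℤ) - ∑ x ∈ range n, g ((x : ℤ) - y)) +
          (∑ x ∈ range n, g ((x : ℤ) - y) - ∑ x ∈ range n, g ((x : ℤ) - (y + 1 : ℕ)))‖ := by
            congr 1; ring
      _ ≤ 2 * y + 2 := (norm_add_le _ _).trans (add_le_add ih h1)
      _ = 2 * ((y + 1 : ℕ) : ℝ) := by push_cast; ring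

/-- **Burgess's bound** for an interval of residues in arbitrary position. -/
theorem burgess_interval (ε : ℝ) (hε : 0 < ε) : ∃ τ : ℝ, 0 < τ ∧ ∃ P : ℕ, ∀ (p : ℕ) [Fact p.Prime], P ≤ p →
    ∀ χ : DirichletCharacter ℂ p, χ ≠ 1 → ∀ (h : ZMod p) (n : ℕ), n ≤ p →
      ‖∑ y ∈ range n, χ (h + (y : ZMod p))‖ ≤ (p : ℝ) ^ (-τ) * n + (p : ℝ) ^ (1 / 4 + ε) := by
  obtain ⟨τ₀, hτ₀, P1, hP1⟩ := Pool.Agent.W27.BG.quarter (1 / 4 + ε / 2) 2 (by linarith)
  obtain ⟨τ, hτ, hττ, hτ1⟩ : ∃ τ : ℝ, 0 < τ ∧ τ ≤ τ₀ ∧ τ ≤ 1 := ⟨min τ₀ 1, lt_min hτ₀ one_pos, min_le_left _ _, min_le_right _ _⟩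
  obtain ⟨P2, hP2⟩ := large_pow τ₀ hτ₀ 4
  obtain ⟨P3, hP3⟩ := large_pow (τ / 16) (by positivity) 6
  refine ⟨τ / 16, by positivity, P1 + P2 + P3, fun p hpF hp χ hχ h n hn => ?_⟩
  have hpp : p.Prime := hpF.out
  have hp1 : (1:ℝ) ≤ p := by exact_mod_cast hpp.one_lt.le
  have hp1' : (1:ℝ) < p := by exact_mod_cast hpp.one_lt
  have hp0 : (0:ℝ) < p := by linarith
  have hx0 : (0:ℝ) < (p:ℝ) ^ (-(τ / 16)) := by positivity
  rcases lt_or_ge (n : ℝ) ((p:ℝ) ^ (1 / 4 + ε)) with hsmall | hbig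
  · have h1 : ‖∑ y ∈ range n, χ (h + (y : ZMod p))‖ ≤ n := by
      refine (norm_sum_le _ _).trans ((sum_le_sum fun y _ => DirichletCharacter.norm_le_one χ _).trans ?_)
      simp
    have h2 : 0 ≤ (p:ℝ) ^ (-(τ / 16)) * n := by positivity
    linarith
  · have hq : 0 < (p:ℝ) ^ (1 / 4 + ε) := by positivity
    suffices hmain : ‖∑ y ∈ range n, χ (h + (y : ZMod p))‖ ≤ (p : ℝ) ^ (-(τ / 16)) * n by linarith
    have hn0 : (0:ℝ) < n := lt_of_lt_of_le hq hbig
    have hn1 : 1 ≤ n := by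
      rcases Nat.eq_zero_or_pos n with h0 | h0
      · rw [h0] at hn0; simp at hn0
      · exact h0
    have hn1' : (1:ℝ) ≤ n := by exact_mod_cast hn1
    classical
    set J : Finset (ZMod p) := (range n).image (fun y : ℕ => (y : ZMod p)) with hJ
    set I : Finset (ZMod p) := (range n).image (fun y : ℕ => h + (y : ZMod p)) with hI
    have injJ := cast_inj (p := p) n hn
    have injI : Set.InjOn (fun y : ℕ => h + (y : ZMod p)) (range n : Finset ℕ) := by
      intro a ha b hb hab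
      exact injJ ha hb (add_left_cancel hab)
    have cJ : J.card = n := by rw [hJ, card_image_of_injOn injJ, card_range]
    have cI : I.card = n := by rw [hI, card_image_of_injOn injI, card_range]
    set A : Finset (ZMod p) := I ∪ J with hA
    have hA1 : n ≤ A.card := by
      rw [← cJ]; exact card_le_card subset_union_right
    have hA2 : A.card ≤ 2 * n := by
      calc A.card ≤ I.card + J.card := card_union_le _ _
        _ = 2 * n := by rw [cI, cJ]; ring
    have hBB : ((J + J).card : ℝ) ≤ 2 * J.card := by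
      have : (J + J).card ≤ 2 * n := by
        have hsub : J + J ⊆ (range (2 * n)).image (fun y : ℕ => (y : ZMod p)) := by
          intro x hx
          obtain ⟨a, ha, b, hb, rfl⟩ := mem_add.1 hx
          obtain ⟨a', ha', rfl⟩ := mem_image.1 ha
          obtain ⟨b', hb', rfl⟩ := mem_image.1 hb
          rw [mem_range] at ha' hb'
          exact mem_image.2 ⟨a' + b', mem_range.2 (by omega), by push_cast; ring⟩
        calc (J + J).card ≤ _ := card_le_card hsub
          _ ≤ (range (2 * n)).card := card_image_le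
          _ = 2 * n := card_range _
      rw [cJ]; exact_mod_cast this
    have hAB : ((A + J).card : ℝ) ≤ (p : ℝ) ^ τ₀ * A.card := by
      have h4 : (A + J).card ≤ 4 * n := by
        have hsub : A + J ⊆ (range (2 * n)).image (fun y : ℕ => h + (y : ZMod p)) ∪
            (range (2 * n)).image (fun y : ℕ => (y : ZMod p)) := by
          intro x hx
          obtain ⟨a, ha, b, hb, rfl⟩ := mem_add.1 hx
          obtain ⟨b', hb', rfl⟩ := mem_image.1 hb
          rw [mem_range] at hb'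
          rcases mem_union.1 ha with ha | ha
          · obtain ⟨a', ha', rfl⟩ := mem_image.1 ha
            rw [mem_range] at ha'
            exact mem_union_left _ (mem_image.2 ⟨a' + b', mem_range.2 (by omega), by push_cast; ring⟩)
          · obtain ⟨a', ha', rfl⟩ := mem_image.1 ha
            rw [mem_range] at ha'
            exact mem_union_right _ (mem_image.2 ⟨a' + b', mem_range.2 (by omega), by push_cast; ring⟩)
        calc (A + J).card ≤ _ := card_le_card hsub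
          _ ≤ _ := card_union_le _ _
          _ ≤ (range (2 * n)).card + (range (2 * n)).card := add_le_add card_image_le card_image_le
          _ = 4 * n := by rw [card_range]; ring
      calc ((A + J).card : ℝ) ≤ 4 * n := by exact_mod_cast h4
        _ ≤ (p : ℝ) ^ τ₀ * A.card := by
            apply mul_le_mul (hP2 p (by omega)) (by exact_mod_cast hA1) (by positivity) (by positivity)
    have hJbig : (p : ℝ) ^ (1 / 4 + ε / 2) < J.card := by
      rw [cJ]
      refine lt_of_lt_of_le ?_ hbig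
      exact Real.rpow_lt_rpow_of_exponent_lt hp1' (by linarith)
    have hAne : A.Nonempty := by
      rw [← card_pos]; omega
    obtain ⟨hbil, -⟩ := hP1 p hpp (by omega) χ hχ A J hAne hJbig hBB hAB
    -- the small interval
    set L : ℕ := ⌈(n : ℝ) ^ (1 - τ)⌉₊ with hL
    have hnτ : (1:ℝ) ≤ (n : ℝ) ^ (1 - τ) := Real.one_le_rpow hn1' (by linarith)
    have hLle : L ≤ n := by
      rw [hL]
      apply Nat.ceil_le.2
      calc (n : ℝ) ^ (1 - τ) ≤ (n : ℝ) ^ (1:ℝ) := Real.rpow_le_rpow_of_exponent_le hn1' (by linarith)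
        _ = n := Real.rpow_one _
    have hL1 : (n : ℝ) ^ (1 - τ) ≤ L := Nat.le_ceil _
    have hL2 : (L : ℝ) ≤ 2 * (n : ℝ) ^ (1 - τ) := by
      have := Nat.ceil_lt_add_one (show 0 ≤ (n : ℝ) ^ (1 - τ) by positivity)
      rw [← hL] at this
      linarith
    have hL0 : (0:ℝ) < L := by linarith
    set JL : Finset (ZMod p) := (range L).image (fun y : ℕ => (y : ZMod p)) with hJL
    have injL := cast_inj (p := p) L (hLle.trans hn)
    have cL : JL.card = L := by rw [hJL, card_image_of_injOn injL, card_range]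
    have hJLJ : JL ⊆ A := by
      refine Subset.trans ?_ subset_union_right
      rw [hJL, hJ]
      exact image_subset_image (range_subset_range.2 hLle)
    have hb := hbil (fun x => if x ∈ I then 1 else 0) (fun x => if x ∈ JL then 1 else 0)
    have e1 : ∑ a ∈ A, ‖(if a ∈ I then (1:ℂ) else 0)‖ ^ 2 = n := by
      have : ∀ a ∈ A, ‖(if a ∈ I then (1:ℂ) else 0)‖ ^ 2 = if a ∈ I then (1:ℝ) else 0 := by
        intro a _; split_ifs <;> simp
      rw [sum_congr rfl this, ← sum_filter, sum_const, filter_mem_eq_inter, inter_eq_right.2 subset_union_left, cI]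
      simp
    have e2 : ∑ a ∈ A, ‖(if a ∈ JL then (1:ℂ) else 0)‖ ^ 2 = L := by
      have : ∀ a ∈ A, ‖(if a ∈ JL then (1:ℂ) else 0)‖ ^ 2 = if a ∈ JL then (1:ℝ) else 0 := by
        intro a _; split_ifs <;> simp
      rw [sum_congr rfl this, ← sum_filter, sum_const, filter_mem_eq_inter, inter_eq_right.2 hJLJ, cL]
      simp
    have e3 : ∑ a ∈ A, ∑ b ∈ A, (if a ∈ I then (1:ℂ) else 0) * (if b ∈ JL then (1:ℂ) else 0) * χ (a - b) =
        ∑ x ∈ range n, ∑ y ∈ range L, χ (h + (x : ZMod p) - (y : ZMod p)) := by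
      have s1 : ∀ a ∈ A, ∑ b ∈ A, (if a ∈ I then (1:ℂ) else 0) * (if b ∈ JL then (1:ℂ) else 0) * χ (a - b) =
          if a ∈ I then ∑ b ∈ JL, χ (a - b) else 0 := by
        intro a _
        split_ifs with ha
        · have : ∀ b ∈ A, (1:ℂ) * (if b ∈ JL then (1:ℂ) else 0) * χ (a - b) = if b ∈ JL then χ (a - b) else 0 := by
            intro b _; split_ifs <;> simp
          rw [sum_congr rfl this, ← sum_filter, filter_mem_eq_inter, inter_eq_right.2 hJLJ]
        · simp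
      rw [sum_congr rfl s1, ← sum_filter, filter_mem_eq_inter, inter_eq_right.2 subset_union_left, hI,
        sum_image injI]
      refine sum_congr rfl fun x _ => ?_
      rw [hJL, sum_image injL]
    rw [e1, e2, e3, sum_comm] at hb
    -- comparison with the original sum
    have hcmp : ∀ y ∈ range L, ‖∑ x ∈ range n, χ (h + (x : ZMod p)) - ∑ x ∈ range n, χ (h + (x : ZMod p) - (y : ZMod p))‖ ≤ 2 * L := by
      intro y hy
      have := shift_range (fun k : ℤ => χ (h + (k : ZMod p))) (fun k => DirichletCharacter.norm_le_one χ _) n y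
      have e : ∀ x : ℕ, h + (((x : ℤ) - (y : ℤ) : ℤ) : ZMod p) = h + (x : ZMod p) - (y : ZMod p) := by
        intro x; push_cast; ring
      simp only [e, Int.cast_natCast] at this
      have hy2 : (y : ℝ) ≤ L := by exact_mod_cast (mem_range.1 hy).le
      linarith
    have hLS : (L : ℝ) * ‖∑ x ∈ range n, χ (h + (x : ZMod p))‖ ≤
        ‖∑ y ∈ range L, ∑ x ∈ range n, χ (h + (x : ZMod p) - (y : ZMod p))‖ + 2 * L * L := by
      have e4 : (L : ℂ) * ∑ x ∈ range n, χ (h + (x : ZMod p)) =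
          ∑ y ∈ range L, ∑ x ∈ range n, χ (h + (x : ZMod p) - (y : ZMod p)) +
          ∑ y ∈ range L, (∑ x ∈ range n, χ (h + (x : ZMod p)) - ∑ x ∈ range n, χ (h + (x : ZMod p) - (y : ZMod p))) := by
        rw [sum_sub_distrib, sum_const, card_range, nsmul_eq_mul]
        ring
      have e5 : ‖(L : ℂ) * ∑ x ∈ range n, χ (h + (x : ZMod p))‖ = (L : ℝ) * ‖∑ x ∈ range n, χ (h + (x : ZMod p))‖ := by
        rw [norm_mul, Complex.norm_natCast]
      rw [← e5, e4]
      refine (norm_add_le _ _).trans (add_le_add le_rfl ?_)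
      refine (norm_sum_le _ _).trans ((sum_le_sum hcmp).trans ?_)
      rw [sum_const, card_range, nsmul_eq_mul]
      apply le_of_eq; ring
    -- final computation
    have hAle : (A.card : ℝ) ^ (1 - τ₀) ≤ 2 * (n : ℝ) ^ (1 - τ) := by
      have hA1' : (n : ℝ) ≤ A.card := by exact_mod_cast hA1
      have hA2' : (A.card : ℝ) ≤ 2 * n := by exact_mod_cast hA2
      calc (A.card : ℝ) ^ (1 - τ₀) ≤ (A.card : ℝ) ^ (1 - τ) :=
            Real.rpow_le_rpow_of_exponent_le (by linarith) (by linarith)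
        _ ≤ (2 * n : ℝ) ^ (1 - τ) := Real.rpow_le_rpow (by positivity) hA2' (by linarith)
        _ = (2:ℝ) ^ (1 - τ) * (n : ℝ) ^ (1 - τ) := Real.mul_rpow (by norm_num) (by positivity)
        _ ≤ 2 * (n : ℝ) ^ (1 - τ) := by
            apply mul_le_mul_of_nonneg_right _ (by positivity)
            calc (2:ℝ) ^ (1 - τ) ≤ (2:ℝ) ^ (1:ℝ) := Real.rpow_le_rpow_of_exponent_le (by norm_num) (by linarith)
              _ = 2 := Real.rpow_one _
    have hb2 : ‖∑ y ∈ range L, ∑ x ∈ range n, χ (h + (x : ZMod p) - (y : ZMod p))‖ ≤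
        2 * (n : ℝ) ^ (1 - τ) * (Real.sqrt n * Real.sqrt L) :=
      hb.trans (mul_le_mul_of_nonneg_right hAle (by positivity))
    have hfin : ‖∑ x ∈ range n, χ (h + (x : ZMod p))‖ ≤ 2 * (n : ℝ) ^ (1 - τ / 2) + 4 * (n : ℝ) ^ (1 - τ) := by
      have h6 : (L : ℝ) * ‖∑ x ∈ range n, χ (h + (x : ZMod p))‖ ≤
          (L : ℝ) * (2 * (n : ℝ) ^ (1 - τ / 2) + 4 * (n : ℝ) ^ (1 - τ)) := by
        refine (hLS.trans (add_le_add hb2 le_rfl)).trans ?_
        have h7 : 2 * (n : ℝ) ^ (1 - τ) * (Real.sqrt n * Real.sqrt L) ≤ L * (2 * (n : ℝ) ^ (1 - τ / 2)) := by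
          have h8 : (n : ℝ) ^ ((1 - τ) / 2) ≤ Real.sqrt L := by
            rw [Real.sqrt_eq_rpow]
            calc (n : ℝ) ^ ((1 - τ) / 2) = ((n : ℝ) ^ (1 - τ)) ^ ((1:ℝ) / 2) := by
                  rw [← Real.rpow_mul (by positivity)]; congr 1; ring
              _ ≤ (L : ℝ) ^ ((1:ℝ) / 2) := Real.rpow_le_rpow (by positivity) hL1 (by norm_num)
          have h9 : (n : ℝ) ^ (1 - τ) * Real.sqrt n = (n : ℝ) ^ ((1 - τ) / 2) * (n : ℝ) ^ (1 - τ / 2) := by
            rw [Real.sqrt_eq_rpow, ← Real.rpow_add hn0, ← Real.rpow_add hn0]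
            congr 1; ring
          have h10 : (L : ℝ) = Real.sqrt L * Real.sqrt L := (Real.mul_self_sqrt hL0.le).symm
          calc 2 * (n : ℝ) ^ (1 - τ) * (Real.sqrt n * Real.sqrt L) =
                2 * ((n : ℝ) ^ (1 - τ) * Real.sqrt n) * Real.sqrt L := by ring
            _ = 2 * ((n : ℝ) ^ ((1 - τ) / 2) * (n : ℝ) ^ (1 - τ / 2)) * Real.sqrt L := by rw [h9]
            _ ≤ 2 * (Real.sqrt L * (n : ℝ) ^ (1 - τ / 2)) * Real.sqrt L := by gcongr
            _ = (Real.sqrt L * Real.sqrt L) * (2 * (n : ℝ) ^ (1 - τ / 2)) := by ring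
            _ = L * (2 * (n : ℝ) ^ (1 - τ / 2)) := by rw [← h10]
        have h11 : 2 * (L:ℝ) * L ≤ L * (4 * (n : ℝ) ^ (1 - τ)) := by
          calc 2 * (L:ℝ) * L = L * (2 * L) := by ring
            _ ≤ L * (2 * (2 * (n : ℝ) ^ (1 - τ))) := by gcongr
            _ = _ := by ring
        linarith
      exact le_of_mul_le_mul_left h6 hL0
    have h12 : (n : ℝ) ^ (1 - τ) ≤ (n : ℝ) ^ (1 - τ / 2) := Real.rpow_le_rpow_of_exponent_le hn1' (by linarith)
    have h13 : (n : ℝ) ^ (1 - τ / 2) = n * (n : ℝ) ^ (-(τ / 2)) := by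
      rw [sub_eq_add_neg, Real.rpow_add hn0, Real.rpow_one]
    have h14 : (n : ℝ) ^ (-(τ / 2)) ≤ (p : ℝ) ^ (-(τ / 8)) := by
      have h15 : (p:ℝ) ^ ((1:ℝ) / 4) ≤ n := le_trans (Real.rpow_le_rpow_of_exponent_le hp1 (by linarith)) hbig
      calc (n : ℝ) ^ (-(τ / 2)) ≤ ((p:ℝ) ^ ((1:ℝ) / 4)) ^ (-(τ / 2)) :=
            Real.rpow_le_rpow_of_nonpos (by positivity) h15 (by linarith)
        _ = (p : ℝ) ^ (-(τ / 8)) := by rw [← Real.rpow_mul hp0.le]; congr 1; ring
    have h16 : 6 * (p : ℝ) ^ (-(τ / 8)) ≤ (p : ℝ) ^ (-(τ / 16)) := by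
      have h17 := hP3 p (by omega)
      calc 6 * (p : ℝ) ^ (-(τ / 8)) ≤ (p:ℝ) ^ (τ / 16) * (p : ℝ) ^ (-(τ / 8)) := by gcongr
        _ = (p : ℝ) ^ (-(τ / 16)) := by rw [← Real.rpow_add hp0]; congr 1; ring
    calc _ ≤ 2 * (n : ℝ) ^ (1 - τ / 2) + 4 * (n : ℝ) ^ (1 - τ) := hfin
      _ ≤ 6 * (n : ℝ) ^ (1 - τ / 2) := by linarith
      _ = n * (6 * (n : ℝ) ^ (-(τ / 2))) := by rw [h13]; ring
      _ ≤ n * (6 * (p : ℝ) ^ (-(τ / 8))) := by gcongr
      _ ≤ n * (p : ℝ) ^ (-(τ / 16)) := by gcongr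
      _ = _ := by ring

end Pool.Agent.H16.SQ
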