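import Pool.Agent.H16.SQ.E3

set_option autoImplicit false

/-!
# The bound for `∑ χ(x² - y² + d)`
-/

namespace Pool.Agent.H16.SQ

open Finset

/-- ordered pairs of different numbers -/
def PP (N : ℕ) : Finset (ℕ × ℕ) := (Icc 1 N ×ˢ Icc 1 N).filter fun v => v.1 ≠ v.2

theorem shift2 (g : ℕ × ℕ → ℂ) (hg : ∀ v, ‖g v‖ ≤ 1) (N k : ℕ) :
    ‖∑ v ∈ PP N, g v - ∑ v ∈ PP N, g (v.1 + k, v.2 + k)‖ ≤ 4 * k * N := by
  classical
  have inj : Function.Injective (fun v : ℕ × ℕ => (v.1 + k, v.2 + k)) := by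
    intro a b hab
    have h1 := (Prod.mk.inj hab).1
    have h2 := (Prod.mk.inj hab).2
    ext <;> omega
  set P' := (PP N).image (fun v : ℕ × ℕ => (v.1 + k, v.2 + k)) with hP'
  have e1 : ∑ v ∈ PP N, g (v.1 + k, v.2 + k) = ∑ v ∈ P', g v := by
    rw [hP', sum_image (fun a _ b _ h => inj h)]
  have hcard : (PP N).card = P'.card := by rw [hP', card_image_of_injective _ inj]
  have hsub : PP N \ P' ⊆ (Icc 1 k ×ˢ Icc 1 N) ∪ (Icc 1 N ×ˢ Icc 1 k) := by
    intro v hv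
    rw [mem_sdiff] at hv
    obtain ⟨h1, h2⟩ := hv
    have h1' := h1
    unfold PP at h1
    rw [mem_filter, mem_product, mem_Icc, mem_Icc] at h1
    rw [mem_union, mem_product, mem_product, mem_Icc, mem_Icc, mem_Icc, mem_Icc]
    by_contra hc
    apply h2
    rw [hP', mem_image]
    have h3 : k < v.1 ∧ k < v.2 := by omega
    refine ⟨(v.1 - k, v.2 - k), ?_, ?_⟩
    · unfold PP
      rw [mem_filter, mem_product, mem_Icc, mem_Icc]
      simp only
      omega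
    · ext <;> simp <;> omega
  have hc1 : (PP N \ P').card ≤ 2 * k * N := by
    refine (card_le_card hsub).trans ((card_union_le _ _).trans ?_)
    rw [card_product, card_product, Nat.card_Icc, Nat.card_Icc]
    apply le_of_eq
    simp only [Nat.add_sub_cancel]
    ring
  have hc2 : (P' \ PP N).card ≤ 2 * k * N := by
    rw [← card_sdiff_comm hcard]; exact hc1
  rw [e1, ← sum_sdiff_sub_sum_sdiff]
  have b1 : ‖∑ v ∈ PP N \ P', g v‖ ≤ 2 * k * N := by
    refine (norm_sum_le _ _).trans ((sum_le_sum fun v _ => hg v).trans ?_)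
    rw [sum_const, nsmul_eq_mul, mul_one]
    exact_mod_cast hc1
  have b2 : ‖∑ v ∈ P' \ PP N, g v‖ ≤ 2 * k * N := by
    refine (norm_sum_le _ _).trans ((sum_le_sum fun v _ => hg v).trans ?_)
    rw [sum_const, nsmul_eq_mul, mul_one]
    exact_mod_cast hc2
  refine (norm_sub_le _ _).trans ?_
  linarith

/-- the summand -/
noncomputable def gg {p : ℕ} (χ : DirichletCharacter ℂ p) (ω : ℤ → ℂ) (d : ZMod p) (v : ℕ × ℕ) : ℂ :=
  ω ((v.1 : ℤ) - v.2) * χ ((v.1 : ZMod p) ^ 2 - (v.2 : ZMod p) ^ 2 + d)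

theorem gg_norm {p : ℕ} [Fact p.Prime] (χ : DirichletCharacter ℂ p) (ω : ℤ → ℂ) (hω : ∀ u, ‖ω u‖ ≤ 1) (d : ZMod p) (v : ℕ × ℕ) :
    ‖gg χ ω d v‖ ≤ 1 := by
  unfold gg
  rw [norm_mul]
  exact mul_le_one₀ (hω _) (norm_nonneg _) (DirichletCharacter.norm_le_one χ _)

/-- the sum over all pairs -/
noncomputable def SS {p : ℕ} (χ : DirichletCharacter ℂ p) (ω : ℤ → ℂ) (d : ZMod p) (N : ℕ) : ℂ :=
  ∑ v ∈ Icc 1 N ×ˢ Icc 1 N, gg χ ω d v

theorem diag_bound {p : ℕ} [Fact p.Prime] (χ : DirichletCharacter ℂ p) (ω : ℤ → ℂ) (hω : ∀ u, ‖ω u‖ ≤ 1)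
    (d : ZMod p) (N : ℕ) : ‖SS χ ω d N‖ ≤ N + ‖∑ v ∈ PP N, gg χ ω d v‖ := by
  classical
  unfold SS
  rw [← sum_filter_add_sum_filter_not (Icc 1 N ×ˢ Icc 1 N) (fun v => v.1 ≠ v.2), add_comm]
  refine (norm_add_le _ _).trans (add_le_add ?_ le_rfl)
  refine (norm_sum_le _ _).trans ((sum_le_sum fun v _ => gg_norm χ ω hω d v).trans ?_)
  rw [sum_const, nsmul_eq_mul, mul_one]
  have : ((Icc 1 N ×ˢ Icc 1 N).filter fun v : ℕ × ℕ => ¬ v.1 ≠ v.2).card ≤ (Icc 1 N).card := by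
    apply card_le_card_of_injOn (fun v => v.1)
    · intro v hv
      rw [mem_coe, mem_filter, mem_product] at hv
      exact hv.1.1
    · intro v hv w hw hvw
      rw [mem_coe, mem_filter] at hv hw
      have h1 := not_not.1 hv.2
      have h2 := not_not.1 hw.2
      simp only at hvw
      ext
      · exact hvw
      · rw [← h1, ← h2]; exact hvw
  rw [Nat.card_Icc, Nat.add_sub_cancel] at this
  exact_mod_cast this

theorem two_ua_ne {p : ℕ} [Fact p.Prime] {N A : ℕ} (hN : 1 ≤ N) (hp : 4 * N ^ 3 * A < p)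
    {w : (ℕ × ℕ) × ℕ} (hw : w ∈ W N A) : ((2 * uu w * aa w : ℤ) : ZMod p) ≠ 0 := by
  obtain ⟨h1, h2, h3, h4, h5, h6⟩ := W_mem hw
  apply cast_ne
  · have : aa w ≠ 0 := by omega
    positivity
  · have e : |2 * uu w * aa w| = 2 * (|uu w| * aa w) := by
      rw [abs_mul, abs_mul, abs_of_pos h5]; norm_num; ring
    rw [e]
    have h7 : |uu w| * aa w ≤ N * A := mul_le_mul h2 h6 h5.le (by positivity)
    have h8 : (4 * N ^ 3 * A : ℤ) < p := by exact_mod_cast hp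
    have h9 : (N : ℤ) * A ≤ N ^ 3 * A := by
      have : N * A ≤ N ^ 3 * A := Nat.mul_le_mul_right _ (Nat.le_self_pow (by norm_num) _)
      exact_mod_cast this
    have h10 : (0:ℤ) ≤ N ^ 3 * A := by positivity
    linarith

/-- the bound in the range `4 N³ A < p`, in terms of the parameters -/
theorem regime_one {p : ℕ} [Fact p.Prime] (χ : DirichletCharacter ℂ p) (hχ : χ ≠ 1) (ω : ℤ → ℂ) (hω : ∀ u, ‖ω u‖ ≤ 1)
    (d : ZMod p) (hd : d ≠ 0) (N A B D r : ℕ) (hr : 1 ≤ r) (hN : 1 ≤ N) (hA : 1 ≤ A) (hB1 : 1 ≤ B) (hAN : A ≤ N)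
    (hB : Real.sqrt p ≤ (B : ℝ) ^ r) (hBp : B ≤ p)
    (hp : 4 * N ^ 3 * A < p) (hD : ∀ n : ℕ, n ≤ p → n.divisors.card ≤ D) :
    ‖SS χ ω d N‖ ≤ N + 4 * A * B * N + (N : ℝ) ^ 2 * ((((r : ℝ) ^ (2 * r) + 2 * r) * Real.sqrt p *
      (81 * ((N : ℝ) ^ 2 * A * D ^ 3))) / ((N : ℝ) ^ 2 * A) ^ 2) ^ (1 / (2 * r : ℝ)) := by
  classical
  have hN0 : (0:ℝ) < N := by exact_mod_cast hN
  have hA0 : (0:ℝ) < A := by exact_mod_cast hA
  have hB0 : (0:ℝ) < B := by exact_mod_cast hB1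
  have hE : (coll (W N A) (zz d) : ℝ) ≤ 81 * ((N : ℝ) ^ 2 * A * D ^ 3) := by
    exact_mod_cast coll_bound d hd N A D hN hAN hp hD
  have hbur := burgess χ hχ r B hr hB hBp (W N A) (zz d) (W_card N A) (by positivity) hE
  set Q := ((((r : ℝ) ^ (2 * r) + 2 * r) * Real.sqrt p *
      (81 * ((N : ℝ) ^ 2 * A * D ^ 3))) / ((N : ℝ) ^ 2 * A) ^ 2) ^ (1 / (2 * r : ℝ)) with hQ
  refine (diag_bound χ ω hω d N).trans ?_
  rw [add_assoc]
  refine add_le_add le_rfl ?_
  set S₀ := ∑ v ∈ PP N, gg χ ω d v with hS₀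
  -- the shifted sums
  have e1 : ∑ a ∈ Icc 1 A, ∑ b ∈ Icc 1 B, ∑ v ∈ PP N, gg χ ω d (v.1 + a * b, v.2 + a * b) =
      ∑ w ∈ W N A, (ω (uu w) * χ ((2 * uu w * aa w : ℤ) : ZMod p)) * ∑ b ∈ Icc 1 B, χ (zz d w + (b : ZMod p)) := by
    have e2 : W N A = PP N ×ˢ Icc 1 A := by
      unfold W PP
      ext w
      simp only [mem_filter, mem_product]
      tauto
    rw [e2, sum_product_right]
    refine sum_congr rfl fun a ha => ?_
    rw [sum_comm]
    refine sum_congr rfl fun v hv => ?_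
    rw [mul_sum]
    refine sum_congr rfl fun b _ => ?_
    have hw : (v, a) ∈ W N A := by rw [e2, mem_product]; exact ⟨hv, ha⟩
    have hne := two_ua_ne hN hp hw
    unfold gg
    have e3 : ω (((v.1 + a * b : ℕ) : ℤ) - ((v.2 + a * b : ℕ) : ℤ)) = ω (uu (v, a)) := by
      congr 1; unfold uu; push_cast; ring
    rw [e3, mul_assoc, ← map_mul]
    congr 2
    unfold zz
    have e4 : ((2 * uu (v, a) * aa (v, a) : ℤ) : ZMod p) * ((((uu (v, a) * vv (v, a) : ℤ) : ZMod p) + d) *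
        ((2 * uu (v, a) * aa (v, a) : ℤ) : ZMod p)⁻¹ + (b : ZMod p)) =
        ((uu (v, a) * vv (v, a) : ℤ) : ZMod p) + d + ((2 * uu (v, a) * aa (v, a) : ℤ) : ZMod p) * b := by
      field_simp
    rw [e4]
    unfold uu vv aa
    push_cast
    ring
  have e5 : ((A : ℂ) * B) * S₀ = ∑ a ∈ Icc 1 A, ∑ b ∈ Icc 1 B, ∑ v ∈ PP N, gg χ ω d (v.1 + a * b, v.2 + a * b) +
      ∑ a ∈ Icc 1 A, ∑ b ∈ Icc 1 B, (S₀ - ∑ v ∈ PP N, gg χ ω d (v.1 + a * b, v.2 + a * b)) := by
    simp_rw [sum_sub_distrib]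
    rw [sum_const, sum_const, Nat.card_Icc, Nat.card_Icc, Nat.add_sub_cancel, Nat.add_sub_cancel, nsmul_eq_mul, nsmul_eq_mul]
    ring
  have b1 : ‖∑ a ∈ Icc 1 A, ∑ b ∈ Icc 1 B, ∑ v ∈ PP N, gg χ ω d (v.1 + a * b, v.2 + a * b)‖ ≤
      (N : ℝ) ^ 2 * A * B * Q := by
    rw [e1]
    refine le_trans ((norm_sum_le _ _).trans (sum_le_sum fun w _ => ?_)) hbur
    rw [norm_mul]
    apply mul_le_of_le_one_left (norm_nonneg _)
    rw [norm_mul]
    exact mul_le_one₀ (hω _) (norm_nonneg _) (DirichletCharacter.norm_le_one χ _)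
  have b2 : ‖∑ a ∈ Icc 1 A, ∑ b ∈ Icc 1 B, (S₀ - ∑ v ∈ PP N, gg χ ω d (v.1 + a * b, v.2 + a * b))‖ ≤
      (A * B) * (4 * (A * B) * N) := by
    have : ∀ a ∈ Icc 1 A, ∀ b ∈ Icc 1 B, ‖S₀ - ∑ v ∈ PP N, gg χ ω d (v.1 + a * b, v.2 + a * b)‖ ≤ 4 * (A * B) * N := by
      intro a ha b hb
      rw [mem_Icc] at ha hb
      refine (shift2 (gg χ ω d) (gg_norm χ ω hω d) N (a * b)).trans ?_
      have h1 : ((a * b : ℕ) : ℝ) ≤ A * B := by exact_mod_cast Nat.mul_le_mul ha.2 hb.2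
      have h2 : (0:ℝ) ≤ N := hN0.le
      nlinarith
    calc _ ≤ ∑ a ∈ Icc 1 A, ∑ b ∈ Icc 1 B, 4 * ((A:ℝ) * B) * N := by
          refine (norm_sum_le _ _).trans (sum_le_sum fun a ha => ?_)
          refine (norm_sum_le _ _).trans (sum_le_sum fun b hb => ?_)
          exact this a ha b hb
      _ = _ := by
          rw [sum_const, sum_const, Nat.card_Icc, Nat.card_Icc, Nat.add_sub_cancel, Nat.add_sub_cancel, nsmul_eq_mul, nsmul_eq_mul]
          ring
  have b3 : (A * B) * ‖S₀‖ ≤ (A * B) * (4 * A * B * N + (N : ℝ) ^ 2 * Q) := by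
    have h1 : ‖((A : ℂ) * B) * S₀‖ = (A * B) * ‖S₀‖ := by
      rw [norm_mul, norm_mul, Complex.norm_natCast, Complex.norm_natCast]
    rw [← h1, e5]
    refine (norm_add_le _ _).trans ((add_le_add b1 b2).trans (le_of_eq ?_))
    ring
  exact le_of_mul_le_mul_left b3 (by positivity)

/-- the range above one quarter, from Burgess's bound -/
theorem regime_two {p : ℕ} [Fact p.Prime] (χ : DirichletCharacter ℂ p) (ω : ℤ → ℂ) (hω : ∀ u, ‖ω u‖ ≤ 1)
    (d : ZMod p) (N : ℕ) (hp : 2 * N < p) (K : ℝ) (hK : 0 ≤ K)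
    (hb : ∀ (h : ZMod p) (n : ℕ), n ≤ N → ‖∑ y ∈ range n, χ (h + (y : ZMod p))‖ ≤ K) :
    ‖SS χ ω d N‖ ≤ N + 2 * N * K := by
  classical
  refine (diag_bound χ ω hω d N).trans ?_
  refine add_le_add le_rfl ?_
  -- fibres of the difference
  have h1 : ∑ v ∈ PP N, gg χ ω d v = ∑ u ∈ (Icc (-(N:ℤ)) N).erase 0,
      ∑ v ∈ (PP N).filter (fun v => (v.1 : ℤ) - v.2 = u), gg χ ω d v := by
    rw [sum_fiberwise_of_maps_to]
    intro v hv
    unfold PP at hv
    rw [mem_filter, mem_product, mem_Icc, mem_Icc] at hv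
    rw [mem_erase, mem_Icc]
    omega
  rw [h1]
  have h2 : ∀ u ∈ (Icc (-(N:ℤ)) N).erase 0,
      ‖∑ v ∈ (PP N).filter (fun v => (v.1 : ℤ) - v.2 = u), gg χ ω d v‖ ≤ K := by
    intro u hu
    rw [mem_erase, mem_Icc] at hu
    obtain ⟨hu0, hu1, hu2⟩ := hu
    -- the second coordinate runs over an interval
    obtain ⟨s, n, hsn, hfib⟩ : ∃ s n : ℕ, n ≤ N ∧ (PP N).filter (fun v => (v.1 : ℤ) - v.2 = u) =
        (range n).image (fun y => ((((s + y : ℕ) : ℤ) + u).toNat, s + y)) := by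
      rcases lt_or_gt_of_ne hu0 with h | h
      · -- `u < 0`
        refine ⟨(1 - u).toNat, (N + u).toNat, by omega, ?_⟩
        ext v
        unfold PP
        rw [mem_filter, mem_filter, mem_product, mem_Icc, mem_Icc, mem_image]
        constructor
        · rintro ⟨⟨⟨h1, h2⟩, h3⟩, h4⟩
          refine ⟨v.2 - (1 - u).toNat, by rw [mem_range]; omega, ?_⟩
          ext
          · simp only; omega
          · simp only; omega
        · rintro ⟨y, hy, rfl⟩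
          rw [mem_range] at hy
          simp only
          omega
      · refine ⟨1, (N - u).toNat, by omega, ?_⟩
        ext v
        unfold PP
        rw [mem_filter, mem_filter, mem_product, mem_Icc, mem_Icc, mem_image]
        constructor
        · rintro ⟨⟨⟨h1, h2⟩, h3⟩, h4⟩
          refine ⟨v.2 - 1, by rw [mem_range]; omega, ?_⟩
          ext
          · simp only; omega
          · simp only; omega
        · rintro ⟨y, hy, rfl⟩
          rw [mem_range] at hy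
          simp only
          omega
    have hval : ∀ v ∈ (PP N).filter (fun v => (v.1 : ℤ) - v.2 = u), gg χ ω d v =
        (ω u * χ ((2 * u : ℤ) : ZMod p)) * χ (((u * u : ℤ) + d) * ((2 * u : ℤ) : ZMod p)⁻¹ + (v.2 : ZMod p)) := by
      intro v hv
      rw [mem_filter] at hv
      have hne : ((2 * u : ℤ) : ZMod p) ≠ 0 := by
        apply cast_ne
        · omega
        · rw [abs_mul]
          have : |u| ≤ N := abs_le.2 ⟨hu1, hu2⟩
          norm_num
          omega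
      unfold gg
      rw [hv.2, mul_assoc, ← map_mul]
      congr 2
      rw [mul_add, mul_comm (((u * u : ℤ) : ZMod p) + d), ← mul_assoc, mul_inv_cancel₀ hne, one_mul, ← hv.2]
      push_cast
      ring
    rw [sum_congr rfl hval, ← mul_sum, hfib, sum_image]
    · rw [norm_mul]
      have hn1 : ‖ω u * χ ((2 * u : ℤ) : ZMod p)‖ ≤ 1 := by
        rw [norm_mul]
        exact mul_le_one₀ (hω _) (norm_nonneg _) (DirichletCharacter.norm_le_one χ _)
      refine (mul_le_of_le_one_left (norm_nonneg _) hn1).trans ?_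
      have := hb (((u * u : ℤ) + d) * ((2 * u : ℤ) : ZMod p)⁻¹ + (s : ZMod p)) n hsn
      refine le_trans (le_of_eq ?_) this
      congr 1
      refine sum_congr rfl fun y _ => ?_
      congr 1
      push_cast
      ring
    · intro a _ b _ hab
      have := (Prod.mk.inj hab).2
      omega
  refine (norm_sum_le _ _).trans ((sum_le_sum h2).trans ?_)
  rw [sum_const, nsmul_eq_mul]
  apply mul_le_mul_of_nonneg_right _ hK
  rw [card_erase_of_mem (by rw [mem_Icc]; constructor <;> omega), Int.card_Icc]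
  have : ((N : ℤ) + 1 - -(N:ℤ)).toNat - 1 ≤ 2 * N := by omega
  exact_mod_cast this

end Pool.Agent.H16.SQ
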