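import Pool.Agent.H16.SQ.E4

set_option autoImplicit false

/-!
# Choice of the parameters
-/

namespace Pool.Agent.H16.SQ

open Finset

theorem key_small (ε : ℝ) (hε : 0 < ε) (hε24 : ε ≤ 1 / 24) : ∃ τ : ℝ, 0 < τ ∧ ∃ P : ℕ, ∀ (p : ℕ) [Fact p.Prime], P ≤ p →
    ∀ χ : DirichletCharacter ℂ p, χ ≠ 1 → ∀ (ω : ℤ → ℂ), (∀ u, ‖ω u‖ ≤ 1) → ∀ d : ZMod p, d ≠ 0 → ∀ N : ℕ,
      (p : ℝ) ^ (1 / 6 + ε) ≤ N → (N : ℝ) ≤ (p : ℝ) ^ (1 / 4 + ε / 32) →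
      ‖SS χ ω d N‖ ≤ (p : ℝ) ^ (-τ) * (N : ℝ) ^ 2 := by
  -- parameters
  obtain ⟨r, hr1, hrε⟩ : ∃ r : ℕ, 1 ≤ r ∧ 1 / (2 * r : ℝ) ≤ ε := by
    obtain ⟨n, hn⟩ := exists_nat_gt (1 / ε)
    have h0 : 0 < 1 / ε := by positivity
    have hn0 : (0:ℝ) < n := h0.trans hn
    refine ⟨n, by exact_mod_cast (by exact_mod_cast hn0 : 0 < n), ?_⟩
    rw [div_lt_iff₀ hε] at hn
    rw [div_le_iff₀ (by positivity)]
    nlinarith
  have hr0 : (0:ℝ) < r := by exact_mod_cast hr1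
  set κ : ℝ := ε / 4 with hκ
  set s : ℝ := 1 / (2 * r : ℝ) with hs
  have hs0 : 0 < s := by positivity
  obtain ⟨C, hC1, hC⟩ := div_bound 1 (κ / 3) (by positivity)
  set K0 : ℝ := (((r : ℝ) ^ (2 * r) + 2 * r) * 81 * C ^ 3 * 4) with hK0
  have hK0p : 0 < K0 := by positivity
  set η : ℝ := min κ (ε * s) with hη
  have hη0 : 0 < η := lt_min (by positivity) (by positivity)
  obtain ⟨P1, hP1⟩ := large_pow (η / 2) (by positivity) (5 + K0 ^ s)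
  obtain ⟨P2, hP2⟩ := large_pow (κ / 2) (by positivity) 5
  obtain ⟨P3, hP3⟩ := large_pow (1 / 12) (by positivity) 2
  refine ⟨η / 2, by positivity, P1 + P2 + P3 + 2, fun p hpF hp χ hχ ω hω d hd N hN1 hN2 => ?_⟩
  have hpp : p.Prime := hpF.out
  have hp1' : (1:ℝ) < p := by exact_mod_cast hpp.one_lt
  have hp1 : (1:ℝ) ≤ p := hp1'.le
  have hp0 : (0:ℝ) < p := by linarith
  have mono : ∀ {a b : ℝ}, a ≤ b → (p:ℝ) ^ a ≤ (p:ℝ) ^ b := fun h => Real.rpow_le_rpow_of_exponent_le hp1 h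
  have hs24 : s ≤ 1 / 24 := hrε.trans hε24
  have hbig1 := hP1 p (by omega)
  have hbig2 := hP2 p (by omega)
  have hbig3 := hP3 p (by omega)
  -- `B`
  set B : ℕ := ⌈(p:ℝ) ^ s⌉₊ with hBdef
  have hBs : (p:ℝ) ^ s ≤ B := Nat.le_ceil _
  have hps1 : (1:ℝ) ≤ (p:ℝ) ^ s := Real.one_le_rpow hp1 hs0.le
  have hB2 : (B : ℝ) ≤ 2 * (p:ℝ) ^ s := by
    have := Nat.ceil_lt_add_one (show 0 ≤ (p:ℝ) ^ s by positivity)
    rw [← hBdef] at this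
    linarith
  have hB0 : (0:ℝ) < B := by linarith
  have hB1 : 1 ≤ B := by
    have : (1:ℝ) ≤ B := hps1.trans hBs
    exact_mod_cast this
  have hBsqrt : Real.sqrt p ≤ (B : ℝ) ^ r := by
    calc Real.sqrt p = ((p:ℝ) ^ s) ^ r := by
          rw [← Real.rpow_natCast, ← Real.rpow_mul hp0.le, Real.sqrt_eq_rpow, hs]
          congr 1
          field_simp
      _ ≤ (B : ℝ) ^ r := pow_le_pow_left₀ (by positivity) hBs r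
  have hBp : B ≤ p := by
    rw [hBdef]
    apply Nat.ceil_le.2
    calc (p:ℝ) ^ s ≤ (p:ℝ) ^ (1:ℝ) := mono (by linarith)
      _ = p := Real.rpow_one _
  -- `A`
  set R : ℝ := N / (B * (p:ℝ) ^ κ) with hR
  have hpκ : 0 < (p:ℝ) ^ κ := by positivity
  have hN0 : (0:ℝ) < N := lt_of_lt_of_le (by positivity) hN1
  have hNnat : 1 ≤ N := by
    have : 0 < N := by exact_mod_cast hN0
    omega
  have hNone : (1:ℝ) ≤ N := by exact_mod_cast hNnat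
  have hR1 : 1 ≤ R := by
    rw [hR, le_div_iff₀ (by positivity), one_mul]
    calc (B:ℝ) * (p:ℝ) ^ κ ≤ (2 * (p:ℝ) ^ s) * (p:ℝ) ^ κ := by gcongr
      _ ≤ ((p:ℝ) ^ ((1:ℝ) / 12) * (p:ℝ) ^ s) * (p:ℝ) ^ κ := by gcongr
      _ = (p:ℝ) ^ (1 / 12 + s + κ) := by rw [Real.rpow_add hp0, Real.rpow_add hp0]
      _ ≤ (p:ℝ) ^ (1 / 6 + ε) := mono (by rw [hκ]; linarith)
      _ ≤ N := hN1
  set A : ℕ := ⌊R⌋₊ with hAdef
  have hA1 : 1 ≤ A := Nat.le_floor (by simpa using hR1)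
  have hAR : (A : ℝ) ≤ R := Nat.floor_le (by linarith)
  have hA0 : (0:ℝ) < A := by exact_mod_cast hA1
  have hRA : R ≤ 2 * A := by
    have h1 := Nat.lt_floor_add_one R
    rw [← hAdef] at h1
    have h2 : (1:ℝ) ≤ A := by exact_mod_cast hA1
    linarith
  have hABN : (A : ℝ) * B * (p:ℝ) ^ κ ≤ N := by
    calc (A : ℝ) * B * (p:ℝ) ^ κ = A * (B * (p:ℝ) ^ κ) := by ring
      _ ≤ R * (B * (p:ℝ) ^ κ) := by gcongr
      _ = N := by rw [hR]; field_simp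
  have hABN2 : (A : ℝ) * B ≤ N * (p:ℝ) ^ (-κ) := by
    rw [Real.rpow_neg hp0.le, ← div_eq_mul_inv, le_div_iff₀ hpκ]; exact hABN
  have hAN : A ≤ N := by
    have h1 : (A : ℝ) ≤ N := by
      have hB1' : (1:ℝ) ≤ B := by exact_mod_cast hB1
      have hk1 : (1:ℝ) ≤ (p:ℝ) ^ κ := Real.one_le_rpow hp1 (by positivity)
      calc (A : ℝ) = A * 1 * 1 := by ring
        _ ≤ A * B * (p:ℝ) ^ κ := by gcongr
        _ ≤ N := hABN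
    exact_mod_cast h1
  -- `4 N³ A < p`
  have h4 : 4 * N ^ 3 * A < p := by
    have h5 : (4:ℝ) * N ^ 3 * A < p := by
      have hA' : (A : ℝ) ≤ N * (p:ℝ) ^ (-κ) := by
        refine le_trans ?_ hABN2
        have hB1' : (1:ℝ) ≤ B := by exact_mod_cast hB1
        nlinarith
      have hN4 : (N : ℝ) ^ 4 ≤ (p:ℝ) ^ (1 + κ / 2) := by
        calc (N : ℝ) ^ 4 ≤ ((p : ℝ) ^ (1 / 4 + ε / 32)) ^ 4 := pow_le_pow_left₀ hN0.le hN2 4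
          _ = (p:ℝ) ^ (1 + κ / 2) := by
              rw [← Real.rpow_natCast, ← Real.rpow_mul hp0.le, hκ]; congr 1; push_cast; ring
      calc (4:ℝ) * N ^ 3 * A ≤ 4 * N ^ 3 * (N * (p:ℝ) ^ (-κ)) := by gcongr
        _ = 4 * (N ^ 4 * (p:ℝ) ^ (-κ)) := by ring
        _ ≤ 4 * ((p:ℝ) ^ (1 + κ / 2) * (p:ℝ) ^ (-κ)) := by gcongr
        _ = 4 * (p * (p:ℝ) ^ (-(κ / 2))) := by
            rw [← Real.rpow_add hp0]
            have : (1:ℝ) + κ / 2 + -κ = 1 + -(κ / 2) := by ring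
            rw [this, Real.rpow_add hp0, Real.rpow_one]
        _ < 5 * (p * (p:ℝ) ^ (-(κ / 2))) := by
            have : 0 < (p:ℝ) * (p:ℝ) ^ (-(κ / 2)) := by positivity
            linarith
        _ ≤ (p:ℝ) ^ (κ / 2) * (p * (p:ℝ) ^ (-(κ / 2))) := by gcongr
        _ = p := by
            rw [mul_left_comm, ← Real.rpow_add hp0]
            rw [add_neg_cancel, Real.rpow_zero, mul_one]
    exact_mod_cast h5
  -- `D`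
  set D : ℕ := ⌊C * (p:ℝ) ^ (κ / 3)⌋₊ with hDdef
  have hD : ∀ n : ℕ, n ≤ p → n.divisors.card ≤ D := by
    intro n hn
    apply Nat.le_floor
    exact hC p n hpp.one_lt.le (by simpa using hn)
  have hDle : (D : ℝ) ≤ C * (p:ℝ) ^ (κ / 3) := Nat.floor_le (by positivity)
  have hD3 : (D : ℝ) ^ 3 ≤ C ^ 3 * (p:ℝ) ^ κ := by
    calc (D : ℝ) ^ 3 ≤ (C * (p:ℝ) ^ (κ / 3)) ^ 3 := pow_le_pow_left₀ (Nat.cast_nonneg _) hDle 3
      _ = C ^ 3 * (p:ℝ) ^ κ := by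
          rw [mul_pow, ← Real.rpow_natCast ((p:ℝ) ^ (κ / 3)), ← Real.rpow_mul hp0.le]
          congr 2; push_cast; ring
  have hmain := regime_one χ hχ ω hω d hd N A B D r hr1 hNnat hA1 hB1 hAN hBsqrt hBp h4 hD
  -- the inner quantity
  have hlow : (p:ℝ) ^ (1 / 2 + 2 * ε - κ) ≤ 4 * ((N : ℝ) ^ 2 * A) := by
    have h5 : (N : ℝ) ≤ 2 * A * (B * (p:ℝ) ^ κ) := by
      calc (N : ℝ) = R * (B * (p:ℝ) ^ κ) := by rw [hR]; field_simp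
        _ ≤ 2 * A * (B * (p:ℝ) ^ κ) := by gcongr
    have h6 : (N : ℝ) ≤ 4 * A * (p:ℝ) ^ (s + κ) := by
      calc (N : ℝ) ≤ 2 * A * (B * (p:ℝ) ^ κ) := h5
        _ ≤ 2 * A * ((2 * (p:ℝ) ^ s) * (p:ℝ) ^ κ) := by gcongr
        _ = 4 * A * (p:ℝ) ^ (s + κ) := by rw [Real.rpow_add hp0]; ring
    have h7 : (p:ℝ) ^ (1 / 2 + 3 * ε) ≤ (N : ℝ) ^ 3 := by
      calc (p:ℝ) ^ (1 / 2 + 3 * ε) = ((p : ℝ) ^ (1 / 6 + ε)) ^ 3 := by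
            rw [← Real.rpow_natCast, ← Real.rpow_mul hp0.le]; congr 1; push_cast; ring
        _ ≤ (N : ℝ) ^ 3 := pow_le_pow_left₀ (by positivity) hN1 3
    have h8 : (p:ℝ) ^ (1 / 2 + 3 * ε) ≤ 4 * ((N : ℝ) ^ 2 * A) * (p:ℝ) ^ (s + κ) := by
      calc (p:ℝ) ^ (1 / 2 + 3 * ε) ≤ (N : ℝ) ^ 3 := h7
        _ = (N : ℝ) ^ 2 * N := by ring
        _ ≤ (N : ℝ) ^ 2 * (4 * A * (p:ℝ) ^ (s + κ)) := by gcongr
        _ = _ := by ring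
    have h9 : (p:ℝ) ^ (1 / 2 + 2 * ε - κ) * (p:ℝ) ^ (s + κ) ≤ 4 * ((N : ℝ) ^ 2 * A) * (p:ℝ) ^ (s + κ) := by
      refine le_trans ?_ h8
      rw [← Real.rpow_add hp0]
      exact mono (by linarith)
    exact le_of_mul_le_mul_right h9 (by positivity)
  have hinner : (((r : ℝ) ^ (2 * r) + 2 * r) * Real.sqrt p *
      (81 * ((N : ℝ) ^ 2 * A * D ^ 3))) / ((N : ℝ) ^ 2 * A) ^ 2 ≤ K0 * (p:ℝ) ^ (-ε) := by
    have hNA0 : 0 < (N : ℝ) ^ 2 * A := by positivity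
    rw [div_le_iff₀ (by positivity)]
    have h10 : Real.sqrt p ≤ 4 * ((N : ℝ) ^ 2 * A) * (p:ℝ) ^ (-(2 * ε - κ)) := by
      rw [Real.sqrt_eq_rpow]
      calc (p:ℝ) ^ ((1:ℝ) / 2) = (p:ℝ) ^ (1 / 2 + 2 * ε - κ) * (p:ℝ) ^ (-(2 * ε - κ)) := by
            rw [← Real.rpow_add hp0]; congr 1; ring
        _ ≤ 4 * ((N : ℝ) ^ 2 * A) * (p:ℝ) ^ (-(2 * ε - κ)) := by gcongr
    calc ((r : ℝ) ^ (2 * r) + 2 * r) * Real.sqrt p * (81 * ((N : ℝ) ^ 2 * A * D ^ 3))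
        ≤ ((r : ℝ) ^ (2 * r) + 2 * r) * (4 * ((N : ℝ) ^ 2 * A) * (p:ℝ) ^ (-(2 * ε - κ))) *
          (81 * ((N : ℝ) ^ 2 * A * (C ^ 3 * (p:ℝ) ^ κ))) := by gcongr
      _ = K0 * ((p:ℝ) ^ (-(2 * ε - κ)) * (p:ℝ) ^ κ) * ((N : ℝ) ^ 2 * A) ^ 2 := by rw [hK0]; ring
      _ ≤ K0 * (p:ℝ) ^ (-ε) * ((N : ℝ) ^ 2 * A) ^ 2 := by
          have : (p:ℝ) ^ (-(2 * ε - κ)) * (p:ℝ) ^ κ ≤ (p:ℝ) ^ (-ε) := by
            rw [← Real.rpow_add hp0]; exact mono (by rw [hκ]; linarith)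
          gcongr
  have hpow : ((((r : ℝ) ^ (2 * r) + 2 * r) * Real.sqrt p *
      (81 * ((N : ℝ) ^ 2 * A * D ^ 3))) / ((N : ℝ) ^ 2 * A) ^ 2) ^ (1 / (2 * r : ℝ)) ≤ K0 ^ s * (p:ℝ) ^ (-(ε * s)) := by
    calc _ ≤ (K0 * (p:ℝ) ^ (-ε)) ^ s := by
          rw [← hs]
          exact Real.rpow_le_rpow (by positivity) hinner hs0.le
      _ = K0 ^ s * (p:ℝ) ^ (-(ε * s)) := by
          rw [Real.mul_rpow hK0p.le (by positivity), ← Real.rpow_mul hp0.le]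
          congr 2; ring
  -- conclusion
  have hNη : (N : ℝ) ≤ (N : ℝ) ^ 2 * (p:ℝ) ^ (-η) := by
    have h11 : (p:ℝ) ^ η ≤ N := by
      refine le_trans (mono ?_) hN1
      have : η ≤ κ := min_le_left _ _
      rw [hκ] at this
      linarith
    rw [Real.rpow_neg hp0.le, ← div_eq_mul_inv, le_div_iff₀ (by positivity), sq]
    exact mul_le_mul_of_nonneg_left h11 hN0.le
  have hAη : 4 * (A : ℝ) * B * N ≤ 4 * ((N : ℝ) ^ 2 * (p:ℝ) ^ (-η)) := by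
    calc 4 * (A : ℝ) * B * N = 4 * (A * B) * N := by ring
      _ ≤ 4 * (N * (p:ℝ) ^ (-κ)) * N := by gcongr
      _ = 4 * ((N : ℝ) ^ 2 * (p:ℝ) ^ (-κ)) := by ring
      _ ≤ 4 * ((N : ℝ) ^ 2 * (p:ℝ) ^ (-η)) := by
          have : (p:ℝ) ^ (-κ) ≤ (p:ℝ) ^ (-η) := mono (by linarith [min_le_left κ (ε * s)])
          gcongr
  have hQη : (N : ℝ) ^ 2 * ((((r : ℝ) ^ (2 * r) + 2 * r) * Real.sqrt p *
      (81 * ((N : ℝ) ^ 2 * A * D ^ 3))) / ((N : ℝ) ^ 2 * A) ^ 2) ^ (1 / (2 * r : ℝ)) ≤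
      K0 ^ s * ((N : ℝ) ^ 2 * (p:ℝ) ^ (-η)) := by
    calc _ ≤ (N : ℝ) ^ 2 * (K0 ^ s * (p:ℝ) ^ (-(ε * s))) := by gcongr
      _ ≤ (N : ℝ) ^ 2 * (K0 ^ s * (p:ℝ) ^ (-η)) := by
          have : (p:ℝ) ^ (-(ε * s)) ≤ (p:ℝ) ^ (-η) := mono (by linarith [min_le_right κ (ε * s)])
          gcongr
      _ = _ := by ring
  calc ‖SS χ ω d N‖ ≤ _ := hmain
    _ ≤ (N : ℝ) ^ 2 * (p:ℝ) ^ (-η) + 4 * ((N : ℝ) ^ 2 * (p:ℝ) ^ (-η)) + K0 ^ s * ((N : ℝ) ^ 2 * (p:ℝ) ^ (-η)) :=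
        add_le_add (add_le_add hNη hAη) hQη
    _ = (5 + K0 ^ s) * ((N : ℝ) ^ 2 * (p:ℝ) ^ (-η)) := by ring
    _ ≤ (p:ℝ) ^ (η / 2) * ((N : ℝ) ^ 2 * (p:ℝ) ^ (-η)) := by gcongr
    _ = (p:ℝ) ^ (-(η / 2)) * (N : ℝ) ^ 2 := by
        rw [mul_left_comm, ← Real.rpow_add hp0, mul_comm]
        congr 2; ring

/-- **Main bound.** -/
theorem key (ε : ℝ) (hε : 0 < ε) : ∃ τ : ℝ, 0 < τ ∧ ∃ P : ℕ, ∀ (p : ℕ) [Fact p.Prime], P ≤ p →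
    ∀ χ : DirichletCharacter ℂ p, χ ≠ 1 → ∀ (ω : ℤ → ℂ), (∀ u, ‖ω u‖ ≤ 1) → ∀ d : ZMod p, d ≠ 0 → ∀ N : ℕ,
      (p : ℝ) ^ (1 / 6 + ε) ≤ N → 2 * N < p →
      ‖SS χ ω d N‖ ≤ (p : ℝ) ^ (-τ) * (N : ℝ) ^ 2 := by
  obtain ⟨ε₁, h1, h2, h3⟩ : ∃ ε₁ : ℝ, 0 < ε₁ ∧ ε₁ ≤ ε ∧ ε₁ ≤ 1 / 24 :=
    ⟨min ε (1 / 24), lt_min hε (by norm_num), min_le_left _ _, min_le_right _ _⟩
  obtain ⟨τ1, hτ1, P1, hP1⟩ := key_small ε₁ h1 h3
  obtain ⟨τ2, hτ2, P2, hP2⟩ := burgess_interval (ε₁ / 64) (by positivity)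
  set η : ℝ := min τ2 (ε₁ / 64) with hη
  have hη0 : 0 < η := lt_min hτ2 (by positivity)
  obtain ⟨P3, hP3⟩ := large_pow (η / 2) (by positivity) 5
  refine ⟨min τ1 (η / 2), lt_min hτ1 (by positivity), P1 + P2 + P3 + 2, fun p hpF hp χ hχ ω hω d hd N hN hNp => ?_⟩
  have hpp : p.Prime := hpF.out
  have hp1' : (1:ℝ) < p := by exact_mod_cast hpp.one_lt
  have hp1 : (1:ℝ) ≤ p := hp1'.le
  have hp0 : (0:ℝ) < p := by linarith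
  have mono : ∀ {a b : ℝ}, a ≤ b → (p:ℝ) ^ a ≤ (p:ℝ) ^ b := fun h => Real.rpow_le_rpow_of_exponent_le hp1 h
  have hN0 : (0:ℝ) < N := lt_of_lt_of_le (by positivity) hN
  rcases le_or_gt (N : ℝ) ((p : ℝ) ^ (1 / 4 + ε₁ / 32)) with h | h
  · refine (hP1 p (by omega) χ hχ ω hω d hd N ((mono (by linarith)).trans hN) h).trans ?_
    apply mul_le_mul_of_nonneg_right (mono _) (by positivity)
    linarith [min_le_left τ1 (η / 2)]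
  · have hK : ∀ (h : ZMod p) (n : ℕ), n ≤ N → ‖∑ y ∈ range n, χ (h + (y : ZMod p))‖ ≤ 2 * (N * (p:ℝ) ^ (-η)) := by
      intro hh n hn
      refine (hP2 p (by omega) χ hχ hh n (by omega)).trans ?_
      have e1 : (p : ℝ) ^ (-τ2) * n ≤ N * (p:ℝ) ^ (-η) := by
        have hn' : (n : ℝ) ≤ N := by exact_mod_cast hn
        have : (p : ℝ) ^ (-τ2) ≤ (p:ℝ) ^ (-η) := mono (by linarith [min_le_left τ2 (ε₁ / 64)])
        calc (p : ℝ) ^ (-τ2) * n ≤ (p:ℝ) ^ (-η) * N := by gcongr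
          _ = _ := mul_comm _ _
      have e2 : (p : ℝ) ^ (1 / 4 + ε₁ / 64) ≤ N * (p:ℝ) ^ (-η) := by
        rw [Real.rpow_neg hp0.le, ← div_eq_mul_inv, le_div_iff₀ (by positivity), ← Real.rpow_add hp0]
        refine le_trans (mono ?_) h.le
        linarith [min_le_right τ2 (ε₁ / 64)]
      linarith
    have h5 := regime_two χ ω hω d N hNp _ (by positivity) hK
    have hNη : (N : ℝ) ≤ (N : ℝ) ^ 2 * (p:ℝ) ^ (-η) := by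
      have h11 : (p:ℝ) ^ η ≤ N := by
        refine le_trans (mono ?_) hN
        linarith [min_le_right τ2 (ε₁ / 64)]
      rw [Real.rpow_neg hp0.le, ← div_eq_mul_inv, le_div_iff₀ (by positivity), sq]
      exact mul_le_mul_of_nonneg_left h11 hN0.le
    calc ‖SS χ ω d N‖ ≤ N + 2 * N * (2 * (N * (p:ℝ) ^ (-η))) := h5
      _ ≤ (N : ℝ) ^ 2 * (p:ℝ) ^ (-η) + 2 * N * (2 * (N * (p:ℝ) ^ (-η))) := by linarith
      _ = 5 * ((N : ℝ) ^ 2 * (p:ℝ) ^ (-η)) := by ring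
      _ ≤ (p:ℝ) ^ (η / 2) * ((N : ℝ) ^ 2 * (p:ℝ) ^ (-η)) := by
          gcongr
          exact hP3 p (by omega)
      _ = (p:ℝ) ^ (-(η / 2)) * (N : ℝ) ^ 2 := by
          rw [mul_left_comm, ← Real.rpow_add hp0, mul_comm]
          congr 2; ring
      _ ≤ (p:ℝ) ^ (-(min τ1 (η / 2))) * (N : ℝ) ^ 2 := by
          apply mul_le_mul_of_nonneg_right (mono _) (by positivity)
          linarith [min_le_right τ1 (η / 2)]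

end Pool.Agent.H16.SQ
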